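import Pool.Agent.helper45.LOCO.Machine

/-!
# Subforcings with memory: the Hechler real
-/

set_option autoImplicit false

namespace Pool.Agent.helper45.LOCO

open Set Filter Pool.Agent.helper45.LOC

namespace Dat

variable {D : Dat}

/-- all later values of the list `a` are above `g` -/
theorem push {q : Loc} {σ : List ℕ} (h : D.Cfg q σ) (g : ℕ → ℕ) : ∃ q' ≤ q,
    At D.pos D.π q' σ ∧ ∀ r ≤ q', ∀ τ, σ <:+ τ → D.pos τ ≤ r.len → nd D.π r.s τ.length = τ →
      ∀ i, (D.st σ).na ≤ i → i < (D.st τ).na → g i ≤ (D.st τ).a i := by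
  classical
  obtain ⟨hq, hqσ, hm, hc⟩ := h
  obtain ⟨-, hRN, -⟩ := inv hm
  let g' : ℕ → ℕ := fun l => (Finset.range (l + 1)).sup g
  have hg' : ∀ l i, i ≤ l → g i ≤ g' l := fun l i hi =>
    Finset.le_sup (f := g) (Finset.mem_range.2 (by omega))
  have h1 : ∀ ν, ∃ x, D.RN ν → ∀ τ, D.Z ν (code τ) ≤ 2 * g' ν.length + 1 → ¬ D.Tinf ν τ →
      ∀ F ∈ D.Fam ν x, ¬ Reach D.pos D.π ν τ (F : Set (ℕ → ℕ)) := by
    intro ν
    by_cases hν : D.RN ν
    · obtain ⟨x, hx⟩ := D.avoid_fin ν ((D.Z_spec ν hν).1 (2 * g' ν.length + 1))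
      exact ⟨x, fun _ => hx⟩
    · exact ⟨0, fun h => absurd h hν⟩
  choose xs hxs using h1
  obtain ⟨x, hx⟩ := diag xs
  obtain ⟨F, hFc, p, hp, hpσ, hpF, hFB⟩ := hRN x
  rw [← hpF] at hFc
  have hpos := length_le_pos D.R σ
  have hcard : (q.F ∪ p.F).card ≤ q.len := by
    refine (Finset.card_union_le _ _).trans ?_
    rw [hqσ.1]
    omega
  have hcard' : p.F.card ≤ q.len := by
    rw [hqσ.1]
    omega
  obtain ⟨v, hv⟩ : ∃ v, v = cut q q.len le_rfl p.F hcard' := ⟨_, rfl⟩
  obtain ⟨q', hq'⟩ : ∃ q', q' = cut q q.len le_rfl (q.F ∪ p.F) hcard := ⟨_, rfl⟩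
  have hq'q : q' ≤ q := by
    rw [hq']
    exact cut_le q.refl _ _ le_rfl Finset.subset_union_left
  have hq'v : q' ≤ v := by
    rw [hq', hv]
    exact ⟨le_rfl, fun _ _ => rfl, Finset.subset_union_right,
      fun f hf i a b => absurd a (not_le.2 b)⟩
  have hvσ : At D.pos D.π v σ := by
    rw [hv]
    exact ⟨hqσ.1, hqσ.2⟩
  have hvF : v.F = p.F := by
    rw [hv]
    rfl
  have hvFB : FB D.d v x (code σ) := D.FB_inv hpσ hvσ hvF.symm hFB
  refine ⟨q', hq'q, by rw [hq']; exact ⟨hqσ.1, hqσ.2⟩, ?_⟩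
  intro r hr τ
  induction τ with
  | nil =>
    intro a _ _ i b c
    rw [List.suffix_nil.1 a] at b
    omega
  | cons y τ ih =>
    intro hs hl hnd i hi1 hi2
    rcases List.suffix_cons_iff.1 hs with h2 | h2
    · rw [← h2] at hi2
      omega
    · have hlt := D.R.lt τ y
      have hsuf : τ <:+ y :: τ := List.suffix_cons _ _
      have hndτ := nd_of_suf hnd hsuf
      have hIH := ih h2 (by omega) hndτ i hi1
      rcases lt_or_ge i (D.st τ).na with h3 | h3
      · rw [(later hsuf).2.1 i h3]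
        exact hIH h3
      · rcases D.tr_cases (D.st τ) (y :: τ) with ⟨-, -, h4⟩ | ⟨-, -, h4⟩ | ⟨ν, -, -, h4⟩ |
          ⟨ν, h5, h6, h4⟩
        · rw [D.st_cons, h4] at hi2
          exact absurd hi2 (not_lt.2 h3)
        · rw [D.st_cons, h4] at hi2
          exact absurd hi2 (not_lt.2 h3)
        · rw [D.st_cons, h4] at hi2
          exact absurd hi2 (not_lt.2 h3)
        · rw [D.st_cons, h4, St.read_na] at hi2
          have hi : i = (D.st τ).na := by omega
          rw [D.st_cons, h4, St.read_a, hi, Function.update_self]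
          obtain ⟨i1, i2, i3⟩ := inv h5
          have hστ := (i3 τ i1 List.suffix_rfl).2
          have hna : (D.st τ).na ≤ ν.length := by
            rw [hστ]
            exact (nc_le ν).2
          have hσν : σ <:+ ν := by
            rcases le_total σ.length ν.length with h7 | h7
            · exact List.suffix_of_suffix_length_le h2 i1 h7
            · have h8 : ν <:+ σ := List.suffix_of_suffix_length_le i1 h2 h7
              have h9 := (i3 σ h8 h2).2
              have h10 : some σ = some ν := by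
                rw [← hm, h9, mode_self h5]
              rw [Option.some.inj h10]
          by_contra hcon
          push Not at hcon
          have h10 := hg' ν.length (D.st τ).na hna
          have hZ : D.Z ν (code (y :: τ)) ≤ 2 * g' ν.length + 1 := by omega
          have hposν := pos_suf D.R hσν
          have hposν' := pos_suf D.R i1
          have hlenν := hσν.length_le
          have hrv : r ≤ v := Loc.trans hr hq'v
          have hrp0 : r ≤ D.p0 := Loc.trans hr (Loc.trans hq'q hq)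
          have hN : D.pos ν ≤ r.len := by omega
          have hcν : p.F.card ≤ D.pos ν := by omega
          have hndν : nd D.π r.s ν.length = ν := nd_of_suf hnd (i1.trans hsuf)
          have hvlen : v.len = D.pos σ := hvσ.1
          have hp0len : D.p0.len ≤ D.pos ν := by
            have e1 := hp.1
            rw [hpσ.1] at e1
            omega
          refine hxs ν i2 (y :: τ) hZ h6 p.F ⟨by omega, cut r (D.pos ν) hN p.F hcν,
            cut_le hrp0 _ _ hp0len hp.2.2.1, ⟨rfl, hndν⟩, rfl, ?_⟩ ?_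
          · refine (hvFB.le (cut_le hrv _ _ (by omega) (by rw [hvF]))).mono (code_suf hσν)
              fun n hn => hx ν n hn
          · refine ⟨r.s, fun n a b => ⟨r.card_s n (by omega), fun f hf => ?_⟩, _,
              path hndν hnd (i1.trans hsuf).length_le⟩
            exact hrv.2.2.2 f (by rw [hvF]; exact hf) n (by omega) (by omega)

variable (D) in
/-- the conditions which decide that the `i`-th value which is read is `m` -/
def O (i m : ℕ) : Set Loc :=
  {p | ∃ σ, D.pos σ ≤ p.len ∧ nd D.π p.s σ.length = σ ∧ i < (D.st σ).nc ∧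
    (D.st σ).a i + (D.st σ).c i = m}

variable (D) in
/-- the name of the real which is read -/
def zn (i m : ℕ) : Set Loc := {p | ∀ q ≤ p, ∃ r ≤ q, r ∈ D.O i m}

theorem O_down {i m : ℕ} {p q : Loc} (h : q ≤ p) (hp : p ∈ D.O i m) : q ∈ D.O i m := by
  obtain ⟨σ, h1, h2, h3, h4⟩ := hp
  exact ⟨σ, h1.trans h.1, nd_le D.R h h1 h2, h3, h4⟩

theorem O_val {σ τ : List ℕ} (h : σ <:+ τ) {i : ℕ} (hi : i < (D.st σ).nc) :
    (D.st τ).a i + (D.st τ).c i = (D.st σ).a i + (D.st σ).c i := by
  have h1 := later (D := D) h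
  rw [h1.2.1 i (hi.trans_le (nc_le σ).1), h1.2.2.2 i hi]

theorem O_disj {i m m' : ℕ} {p : Loc} (h : p ∈ D.O i m) (h' : p ∈ D.O i m') : m = m' := by
  obtain ⟨σ, -, h2, h3, h4⟩ := h
  obtain ⟨σ', -, h2', h3', h4'⟩ := h'
  rcases le_total σ.length σ'.length with hl | hl
  · rw [← h4, ← h4', O_val (path_suf h2 h2' hl) h3]
  · rw [← h4, ← h4', O_val (path_suf h2' h2 hl) h3']

theorem zn_mem (i m : ℕ) : D.zn i m ∈ subf D.pos D.π := by
  intro A hA hS
  let T : Set (Set Loc) := {a | ∃ σ, i < (D.st σ).nc ∧ (D.st σ).a i + (D.st σ).c i = m ∧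
    a = val D.pos D.π σ}
  have hT : T ⊆ A := by
    rintro _ ⟨σ, -, -, rfl⟩
    exact hS ⟨σ, rfl⟩
  have h1 := hA.join_mem hT
  have h2 : {p : Loc | ∀ q ≤ p, ∃ a ∈ T, ∃ r ≤ q, r ∈ a} = D.zn i m := by
    ext p
    constructor
    · intro hp q hq
      obtain ⟨_, ⟨σ, hi, hm, rfl⟩, r, hr, hrv⟩ := hp q hq
      obtain ⟨r1, hr1, -, τ, hτ, hτl⟩ := long D.R r σ.length
      have e1 : nd D.π r1.s σ.length <:+ τ := by
        conv_rhs => rw [← hτ.2]
        exact go_suf _ _ hτl
      have e2 : D.pos (nd D.π r1.s σ.length) ≤ r1.len := by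
        rw [hτ.1]
        exact pos_suf D.R e1
      have e3 := hrv r1 hr1 e2
      rw [e3] at e2
      exact ⟨r1, Loc.trans hr1 hr, σ, e2, e3, hi, hm⟩
    · intro hp q hq
      obtain ⟨r, hr, σ, a1, a2, a3, a4⟩ := hp q hq
      exact ⟨_, ⟨σ, a3, a4, rfl⟩, r, hr, fun r' hr' _ => nd_le D.R hr' a1 a2⟩
  rw [← h2]
  exact h1

theorem hechler : Hechler D.p0 D.zn := by
  classical
  intro E hE p hp
  have hstep : ∀ c : {c : Loc × List ℕ // D.Cfg c.1 c.2}, ∃ f : ℕ, ∀ k,
      ∃ c' : {c : Loc × List ℕ // D.Cfg c.1 c.2}, f ≤ k → c'.1.1 ≤ c.1.1 ∧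
        D.st c'.1.2 = ((D.st c.1.2).read k).set (some c'.1.2) := by
    rintro ⟨⟨q, σ⟩, h⟩
    obtain ⟨f, hf⟩ := step h
    refine ⟨f, fun k => ?_⟩
    by_cases hk : f ≤ k
    · obtain ⟨q', hq', -, σ', h1, -, h3⟩ := hf k hk
      exact ⟨⟨⟨q', σ'⟩, h1⟩, fun _ => ⟨hq', h3⟩⟩
    · exact ⟨⟨⟨q, σ⟩, h⟩, fun h' => absurd h' hk⟩
  choose f nx hnx using hstep
  obtain ⟨q0, hq0, -, σ0, hc0⟩ := start hp
  obtain ⟨c1, hc1⟩ : ∃ c1, c1 = nx ⟨⟨q0, σ0⟩, hc0⟩ (2 * f ⟨⟨q0, σ0⟩, hc0⟩ + 1) := ⟨_, rfl⟩
  have h0 := hnx ⟨⟨q0, σ0⟩, hc0⟩ (2 * f ⟨⟨q0, σ0⟩, hc0⟩ + 1) (by omega)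
  rw [← hc1] at h0
  obtain ⟨S, hS⟩ : ∃ S, S = D.st c1.1.2 := ⟨_, rfl⟩
  have hr0 : S.r = 0 := by
    rw [hS, h0.2]
    exact (St.read_odd _ (by omega)).2.2
  have hSn : S.nc ≤ S.na := by
    rw [hS]
    exact (nc_le _).1
  -- the finite sets of configurations
  let L : ℕ → Finset {c : Loc × List ℕ // D.Cfg c.1 c.2} := fun l =>
    Nat.rec {c1} (fun _ M => (M.image fun c => nx c (2 * M.sup f)) ∪
      M.image fun c => nx c (2 * M.sup f + 1)) l
  let B : ℕ → ℕ := fun l => (L l).sup f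
  have hL0 : c1 ∈ L 0 := Finset.mem_singleton_self _
  have hLs : ∀ l, L (l + 1) = ((L l).image fun c => nx c (2 * B l)) ∪
      (L l).image fun c => nx c (2 * B l + 1) := fun l => rfl
  have hLB : ∀ l, ∀ c ∈ L l, f c ≤ B l := fun l c hc => Finset.le_sup hc
  have hLn : ∀ l, ∀ c ∈ L l, ∀ b < 2, nx c (2 * B l + b) ∈ L (l + 1) := by
    intro l c hc b hb
    rw [hLs, Finset.mem_union]
    rcases (by omega : b = 0 ∨ b = 1) with rfl | rfl
    · exact Or.inl (Finset.mem_image_of_mem _ hc)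
    · exact Or.inr (Finset.mem_image_of_mem _ hc)
  -- the Hechler condition
  obtain ⟨t, htE, ht⟩ := hE ⟨S.na, fun i => if i < S.nc then S.a i + S.c i else S.a i,
    fun i => B (i - S.na)⟩
  obtain ⟨t1, t2, -, t4⟩ := ht
  replace t1 : S.na ≤ t.len := t1
  replace t2 : ∀ i < S.na, t.s i = if i < S.nc then S.a i + S.c i else S.a i := t2
  replace t4 : ∀ i, S.na ≤ i → i < t.len → B (i - S.na) ≤ t.s i := t4
  let I : {c : Loc × List ℕ // D.Cfg c.1 c.2} → Prop := fun c => c.1.1 ≤ c1.1.1 ∧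
    Later S (D.st c.1.2) ∧
    (∀ i, S.na ≤ i → i < (D.st c.1.2).na → i < t.len → (D.st c.1.2).a i = B (i - S.na)) ∧
    (∀ i, t.len ≤ i → i < (D.st c.1.2).na → t.f i ≤ (D.st c.1.2).a i) ∧
    ((D.st c.1.2).na ≤ t.len → c ∈ L ((D.st c.1.2).na - S.na))
  have hI1 : I c1 := by
    refine ⟨c1.1.1.refl, by rw [hS]; exact Later.refl _, fun i a b _ => ?_, fun i a b => ?_,
      fun _ => ?_⟩
    · rw [← hS] at b
      omega
    · rw [← hS] at b
      omega
    · rw [← hS, Nat.sub_self]
      exact hL0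
  -- one bit
  have bit : ∀ c, I c → ∀ b < 2, ∃ c', I c' ∧ ∃ k, k % 2 = b ∧
      D.st c'.1.2 = ((D.st c.1.2).read k).set (some c'.1.2) := by
    intro c hc b hb
    obtain ⟨j1, j2, j3, j4, j5⟩ := hc
    have jn := j2.1
    by_cases hlt : (D.st c.1.2).na < t.len
    · have hcL := j5 hlt.le
      obtain ⟨l, hl⟩ : ∃ l, l = (D.st c.1.2).na - S.na := ⟨_, rfl⟩
      rw [← hl] at hcL
      have h3 := hnx c (2 * B l + b) (by have := hLB l c hcL; omega)
      obtain ⟨c', hc'⟩ : ∃ c', c' = nx c (2 * B l + b) := ⟨_, rfl⟩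
      rw [← hc'] at h3
      have hna : (D.st c'.1.2).na = (D.st c.1.2).na + 1 := by
        rw [h3.2]
        exact St.read_na _ _
      have ha : (D.st c'.1.2).a = Function.update (D.st c.1.2).a (D.st c.1.2).na (B l) := by
        rw [h3.2]
        show ((D.st c.1.2).read _).a = _
        rw [St.read_a]
        have : (2 * B l + b) / 2 = B l := by omega
        rw [this]
      have hlater : Later (D.st c.1.2) (D.st c'.1.2) := by
        rw [h3.2]
        exact Later.read _ _
      refine ⟨c', ⟨Loc.trans h3.1 j1, j2.trans hlater, fun i a b1 b2 => ?_, fun i a b1 => ?_,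
        fun _ => ?_⟩, 2 * B l + b, by omega, h3.2⟩
      · rw [ha]
        by_cases hi : i = (D.st c.1.2).na
        · rw [hi, Function.update_self, hl]
        · rw [Function.update_of_ne hi]
          exact j3 i a (by omega) b2
      · rw [hna] at b1
        omega
      · rw [hna]
        have e1 : (D.st c.1.2).na + 1 - S.na = l + 1 := by omega
        rw [e1, hc']
        exact hLn l c hcL b hb
    · obtain ⟨k, hk⟩ : ∃ k, k = 2 * (t.f (D.st c.1.2).na + f c) + b := ⟨_, rfl⟩
      have h3 := hnx c k (by omega)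
      obtain ⟨c', hc'⟩ : ∃ c', c' = nx c k := ⟨_, rfl⟩
      rw [← hc'] at h3
      have hna : (D.st c'.1.2).na = (D.st c.1.2).na + 1 := by
        rw [h3.2]
        exact St.read_na _ _
      have ha : (D.st c'.1.2).a = Function.update (D.st c.1.2).a (D.st c.1.2).na (k / 2) := by
        rw [h3.2]
        exact St.read_a _ _
      have hlater : Later (D.st c.1.2) (D.st c'.1.2) := by
        rw [h3.2]
        exact Later.read _ _
      refine ⟨c', ⟨Loc.trans h3.1 j1, j2.trans hlater, fun i a b1 b2 => ?_, fun i a b1 => ?_,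
        fun h4 => ?_⟩, k, by omega, h3.2⟩
      · rw [ha, Function.update_of_ne (by omega)]
        exact j3 i a (by omega) b2
      · rw [ha]
        by_cases hi : i = (D.st c.1.2).na
        · rw [hi, Function.update_self]
          omega
        · rw [Function.update_of_ne hi]
          exact j4 i a (by omega)
      · omega
  -- a run of zeros
  have zeros : ∀ v c, I c → ∃ c', I c' ∧ (D.st c'.1.2).nc = (D.st c.1.2).nc ∧
      (D.st c'.1.2).c = (D.st c.1.2).c ∧ (D.st c'.1.2).r = (D.st c.1.2).r + v := by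
    intro v
    induction v with
    | zero => exact fun c hc => ⟨c, hc, rfl, rfl, rfl⟩
    | succ v ih =>
      intro c hc
      obtain ⟨c', hc', e1, e2, e3⟩ := ih c hc
      obtain ⟨c2, hc2, k, hk, hst⟩ := bit c' hc' 0 (by omega)
      obtain ⟨g1, g2, g3⟩ := St.read_even (D.st c'.1.2) hk
      refine ⟨c2, hc2, ?_, ?_, ?_⟩
      · rw [hst]
        exact g1.trans e1
      · rw [hst]
        exact g2.trans e2
      · rw [hst]
        show ((D.st c'.1.2).read k).r = _
        rw [g3, e3]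
        omega
  -- the realization of `t`
  let A' : ℕ → ℕ := fun i => if i < S.na then S.a i else B (i - S.na)
  have real : ∀ m, S.nc ≤ m → m ≤ t.len → ∃ c, I c ∧ (D.st c.1.2).nc = m ∧
      (D.st c.1.2).r = 0 ∧ ∀ i, S.nc ≤ i → i < m → (D.st c.1.2).c i = t.s i - A' i := by
    intro m hm
    induction m, hm using Nat.le_induction with
    | base =>
      intro _
      exact ⟨c1, hI1, by rw [hS], by rw [← hS]; exact hr0, fun i a b => by omega⟩
    | succ m hm ih =>
      intro hmt
      obtain ⟨c, hc, e1, e2, e3⟩ := ih (by omega)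
      obtain ⟨c', hc', g1, g2, g3⟩ := zeros (t.s m - A' m) c hc
      obtain ⟨c2, hc2, k, hk, hst⟩ := bit c' hc' 1 (by omega)
      obtain ⟨u1, u2, u3⟩ := St.read_odd (D.st c'.1.2) hk
      refine ⟨c2, hc2, ?_, ?_, fun i a b => ?_⟩
      · rw [hst]
        show ((D.st c'.1.2).read k).nc = _
        rw [u1, g1, e1]
      · rw [hst]
        exact u3
      · rw [hst]
        show ((D.st c'.1.2).read k).c i = _
        rw [u2, g1, e1, g2, g3, e2]
        by_cases hi : i = m
        · rw [hi, Function.update_self]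
          omega
        · rw [Function.update_of_ne hi]
          exact e3 i a (by omega)
  obtain ⟨c, hc, hcnc, -, hcc⟩ := real t.len (hSn.trans t1) le_rfl
  obtain ⟨j1, j2, j3, j4, -⟩ := hc
  have hna : t.len ≤ (D.st c.1.2).na := by
    rw [← hcnc]
    exact (nc_le _).1
  have hval : ∀ i < t.len, (D.st c.1.2).a i + (D.st c.1.2).c i = t.s i := by
    intro i hi
    rcases lt_or_ge i S.nc with h1 | h1
    · rw [j2.2.1 i (by omega), j2.2.2.2 i h1, t2 i (by omega), if_pos h1]
    · rw [hcc i h1 hi]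
      show (D.st c.1.2).a i + (t.s i - if i < S.na then S.a i else B (i - S.na)) = t.s i
      rcases lt_or_ge i S.na with h2 | h2
      · have e1 := t2 i h2
        rw [if_neg (by omega)] at e1
        rw [j2.2.1 i h2, if_pos h2]
        omega
      · have e1 := t4 i h2 hi
        rw [j3 i h2 (by omega) hi, if_neg (by omega)]
        omega
  obtain ⟨q', hq', hq'at, hpush⟩ := push c.2 t.f
  have hq'p : q' ≤ p := Loc.trans hq' (Loc.trans j1 (Loc.trans h0.1 hq0))
  refine ⟨q', hq'p, t, htE, ?_, ?_⟩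
  · intro i hi q hq
    refine ⟨q, q.refl, c.1.2, ?_, hq'at.le D.R hq, by omega, hval i hi⟩
    rw [← hq'at.1]
    exact hq.1
  · intro i hi m r hr hrz
    obtain ⟨r', hr', τ, a1, a2, a3, a4⟩ := hrz r r.refl
    have hr'q : r' ≤ q' := Loc.trans hr' hr
    have e1 : nd D.π r'.s c.1.2.length = c.1.2 := hq'at.le D.R hr'q
    rcases le_total τ.length c.1.2.length with h1 | h1
    · have h2 := (later (D := D) (path_suf a2 e1 h1)).2.2.1
      omega
    · have h2 : c.1.2 <:+ τ := path_suf e1 a2 h1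
      have h3 := (nc_le (D := D) τ).1
      have h4 : t.f i ≤ (D.st τ).a i := by
        rcases lt_or_ge i (D.st c.1.2).na with h5 | h5
        · rw [(later h2).2.1 i h5]
          exact j4 i hi h5
        · exact hpush r' hr'q τ h2 a1 a2 i h5 (by omega)
      omega

theorem adds : AddsHechler (subf D.pos D.π) D.p0 := by
  refine ⟨D.zn, ⟨zn_mem, ?_, ?_⟩, hechler⟩
  · intro n m m' hmm
    rw [eq_empty_iff_forall_notMem]
    rintro p ⟨hp, hp'⟩
    obtain ⟨r, hr, hrO⟩ := hp p p.refl
    obtain ⟨r', hr', hrO'⟩ := hp' r hr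
    exact hmm (O_disj (O_down hr' hrO) hrO')
  · intro n p hp
    obtain ⟨q, hq, c, hc, h3, -⟩ := hechler (D := D) {c | n < c.len} (by
      intro c
      refine ⟨⟨c.len + n + 1, fun i => if i < c.len then c.s i else c.f i, c.f⟩,
        by show n < c.len + n + 1; omega, by show c.len ≤ c.len + n + 1; omega, fun i hi => ?_,
        fun i => le_rfl, fun i hi _ => ?_⟩
      · show (if i < c.len then c.s i else c.f i) = c.s i
        rw [if_pos hi]
      · show c.f i ≤ (if i < c.len then c.s i else c.f i)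
        rw [if_neg (by omega)]) p hp
    exact ⟨q, hq, _, h3 n hc⟩

end Dat

/-- **Theorem.** If `p0` forces that the subforcing generated by `ψ` adds a dominating real, then
`p0` forces that it adds a Hechler real. -/
theorem main {pos : List ℕ → ℕ} {π : List ℕ → (ℕ → Finset ℕ) → ℕ} (R : Reading pos π) {p0 : Loc}
    (h : AddsDominating (subf pos π) p0) : AddsHechler (subf pos π) p0 := by
  obtain ⟨d, hd, hdom⟩ := h
  exact Dat.adds (D := ⟨pos, π, R, p0, d, hd, hdom⟩)

end Pool.Agent.helper45.LOCO
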