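import Pool.Agent.helper45.LOC.Defs

/-!
# Subforcings of localization forcing whose generic sequence has memory: definitions
-/

set_option autoImplicit false

namespace Pool.Agent.helper45.LOCO

open Pool.Agent.helper45.LOC

/-- the node which is reached from the node `σ` in `k` steps; nodes are finite sequences of
values, listed backwards: `x :: σ` prolongs `σ` by the value `x` -/
def go (π : List ℕ → (ℕ → Finset ℕ) → ℕ) (A : ℕ → Finset ℕ) (σ : List ℕ) : ℕ → List ℕ
  | 0 => σ
  | k + 1 => π (go π A σ k) A :: go π A σ k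

/-- the sequence `ψ` which is read from the slalom `A` has `ψ(j) = π (ψ|j) A`; this is `ψ|j` -/
def nd (π : List ℕ → (ℕ → Finset ℕ) → ℕ) (A : ℕ → Finset ℕ) (j : ℕ) : List ℕ := go π A [] j

/-- `ψ(j) = π (ψ|j) A` depends only on the restriction of `A` to the interval
`[pos (ψ|j), pos (ψ|(j + 1)))` -/
structure Reading (pos : List ℕ → ℕ) (π : List ℕ → (ℕ → Finset ℕ) → ℕ) : Prop where
  lt : ∀ σ x, pos σ < pos (x :: σ)
  loc : ∀ σ (A A' : ℕ → Finset ℕ), (∀ n, pos σ ≤ n → n < pos (π σ A :: σ) → A n = A' n) →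
    π σ A' = π σ A

/-- the Boolean value of `ψ|j = σ`, where `j` is the length of `σ` and `ψ` is read from the
generic slalom -/
def val (pos : List ℕ → ℕ) (π : List ℕ → (ℕ → Finset ℕ) → ℕ) (σ : List ℕ) : Set Loc :=
  {p | ∀ q ≤ p, pos (nd π q.s σ.length) ≤ q.len → nd π q.s σ.length = σ}

/-- the subforcing generated by the sequence `ψ` -/
def subf (pos : List ℕ → ℕ) (π : List ℕ → (ℕ → Finset ℕ) → ℕ) : Set (Set Loc) :=
  gen {a | ∃ σ, a = val pos π σ}

/-- names, below `p0`, for a real in the extension by the subforcing `A`: `d n m` is the value of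
`d(n) = m` -/
structure IsReal (A : Set (Set Loc)) (p0 : Loc) (d : ℕ → ℕ → Set Loc) : Prop where
  mem : ∀ n m, d n m ∈ A
  disj : ∀ n m m', m ≠ m' → d n m ∩ d n m' = ∅
  total : ∀ n, ∀ p ≤ p0, ∃ q ≤ p, ∃ m, q ∈ d n m

/-- the condition `p0` forces that the real `d` is generic over the ground model for Hechler
forcing: for every dense set `E`, it is forced that some `(t, g) ∈ E` has `t ⊆ d` and
`g(i) ≤ d(i)` for `i ≥ |t|` -/
def Hechler (p0 : Loc) (d : ℕ → ℕ → Set Loc) : Prop :=
  ∀ E : Set Hec, (∀ c, ∃ c' ∈ E, c' ≤ c) → ∀ p ≤ p0, ∃ q ≤ p, ∃ c ∈ E,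
    (∀ i < c.len, q ∈ d i (c.s i)) ∧ ∀ i ≥ c.len, ∀ m, ∀ r ≤ q, r ∈ d i m → c.f i ≤ m

/-- `p0` forces that the extension by the subforcing `A` contains a dominating real -/
def AddsDominating (A : Set (Set Loc)) (p0 : Loc) : Prop :=
  ∃ d, IsReal A p0 d ∧ Dominating p0 d

/-- `p0` forces that the extension by the subforcing `A` contains a generic real for Hechler
forcing -/
def AddsHechler (A : Set (Set Loc)) (p0 : Loc) : Prop := ∃ d, IsReal A p0 d ∧ Hechler p0 d

end Pool.Agent.helper45.LOCO
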