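import Pool.Agent.helper45.LOC.Basic
import Pool.Agent.helper45.LOCO.Defs

/-!
# Subforcings with memory: elementary facts
-/

set_option autoImplicit false

namespace Pool.Agent.helper45.LOCO

open Set Pool.Agent.helper45.LOC

variable {pos : List ℕ → ℕ} {π : List ℕ → (ℕ → Finset ℕ) → ℕ}

theorem go_length (A : ℕ → Finset ℕ) (σ : List ℕ) (k : ℕ) :
    (go π A σ k).length = σ.length + k := by
  induction k with
  | zero => rfl
  | succ k ih =>
    show (π (go π A σ k) A :: go π A σ k).length = _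
    rw [List.length_cons, ih]
    rfl

theorem nd_length (A : ℕ → Finset ℕ) (j : ℕ) : (nd π A j).length = j := by
  unfold nd
  rw [go_length]
  simp

theorem go_add (A : ℕ → Finset ℕ) (σ : List ℕ) (k l : ℕ) :
    go π A σ (k + l) = go π A (go π A σ k) l := by
  induction l with
  | zero => rfl
  | succ l ih =>
    show π (go π A σ (k + l)) A :: go π A σ (k + l) = _
    rw [ih]
    rfl

theorem suf_go (A : ℕ → Finset ℕ) (σ : List ℕ) (k : ℕ) : σ <:+ go π A σ k := by
  induction k with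
  | zero => exact List.suffix_rfl
  | succ k ih => exact ih.trans (List.suffix_cons _ _)

theorem go_suf (A : ℕ → Finset ℕ) (σ : List ℕ) {k l : ℕ} (h : k ≤ l) :
    go π A σ k <:+ go π A σ l := by
  obtain ⟨m, rfl⟩ := Nat.exists_eq_add_of_le h
  rw [go_add]
  exact suf_go _ _ _

theorem suf_eq {σ τ ρ : List ℕ} (h1 : σ <:+ ρ) (h2 : τ <:+ ρ) (h : σ.length = τ.length) :
    σ = τ :=
  (List.suffix_of_suffix_length_le h1 h2 h.le).eq_of_length h

theorem between {A : ℕ → Finset ℕ} {σ ν : List ℕ} {k : ℕ} (h1 : σ <:+ ν)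
    (h2 : ν <:+ go π A σ k) : ∃ i ≤ k, ν = go π A σ i := by
  have h3 := h1.length_le
  have h4 := h2.length_le
  rw [go_length] at h4
  refine ⟨ν.length - σ.length, by omega, ?_⟩
  refine suf_eq h2 (go_suf _ _ (by omega)) ?_
  rw [go_length]
  omega

theorem go_nd {A : ℕ → Finset ℕ} {σ : List ℕ} (h : nd π A σ.length = σ) (k : ℕ) :
    nd π A (σ.length + k) = go π A σ k := by
  unfold nd at h ⊢
  rw [go_add, h]

theorem path {A : ℕ → Finset ℕ} {σ τ : List ℕ} (h : nd π A σ.length = σ)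
    (h' : nd π A τ.length = τ) (hl : σ.length ≤ τ.length) :
    go π A σ (τ.length - σ.length) = τ := by
  rw [← go_nd h, Nat.add_sub_cancel' hl]
  exact h'

theorem path_suf {A : ℕ → Finset ℕ} {σ τ : List ℕ} (h : nd π A σ.length = σ)
    (h' : nd π A τ.length = τ) (hl : σ.length ≤ τ.length) : σ <:+ τ := by
  rw [← path h h' hl]
  exact suf_go _ _ _

theorem nd_of_suf {A : ℕ → Finset ℕ} {σ τ : List ℕ} (h : nd π A τ.length = τ)
    (hs : σ <:+ τ) : nd π A σ.length = σ := by
  refine suf_eq (ρ := τ) ?_ hs (nd_length _ _)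
  conv_rhs => rw [← h]
  exact go_suf _ _ hs.length_le

section Pos

variable (R : Reading pos π)

include R in
theorem pos_go (A : ℕ → Finset ℕ) (σ : List ℕ) (k : ℕ) : pos σ + k ≤ pos (go π A σ k) := by
  induction k with
  | zero => exact le_rfl
  | succ k ih =>
    have := R.lt (go π A σ k) (π (go π A σ k) A)
    show pos σ + (k + 1) ≤ pos (π (go π A σ k) A :: go π A σ k)
    omega

include R in
theorem pos_suf {σ τ : List ℕ} (h : σ <:+ τ) : pos σ ≤ pos τ := by
  induction τ with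
  | nil => rw [List.suffix_nil.1 h]
  | cons x τ ih =>
    rcases List.suffix_cons_iff.1 h with rfl | h'
    · exact le_rfl
    · exact (ih h').trans (R.lt τ x).le

include R in
theorem length_le_pos (σ : List ℕ) : σ.length ≤ pos σ := by
  induction σ with
  | nil => simp
  | cons x σ ih =>
    have := R.lt σ x
    simp only [List.length_cons]
    omega

include R in
theorem go_congr {A A' : ℕ → Finset ℕ} {σ : List ℕ} {k : ℕ}
    (h : ∀ n, pos σ ≤ n → n < pos (go π A σ k) → A n = A' n) : go π A' σ k = go π A σ k := by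
  induction k with
  | zero => rfl
  | succ k ih =>
    have h1 := R.lt (go π A σ k) (π (go π A σ k) A)
    have h2 : pos (go π A σ (k + 1)) = pos (π (go π A σ k) A :: go π A σ k) := rfl
    have h3 : go π A' σ k = go π A σ k := ih fun n a b => h n a (by omega)
    have h4 := pos_go R A σ k
    show π (go π A' σ k) A' :: go π A' σ k = π (go π A σ k) A :: go π A σ k
    rw [h3, R.loc (go π A σ k) A A' fun n a b => h n (by omega) (by omega)]

include R in
theorem nd_congr {A A' : ℕ → Finset ℕ} {σ : List ℕ} (h : ∀ n < pos σ, A n = A' n)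
    (hA : nd π A σ.length = σ) : nd π A' σ.length = σ := by
  have : nd π A' σ.length = nd π A σ.length := go_congr R fun n _ b => h n (by
    have : go π A [] σ.length = σ := hA
    rw [this] at b
    exact b)
  rw [this, hA]

end Pos

/-- the stem of `p` ends at the node `σ` -/
def At (pos : List ℕ → ℕ) (π : List ℕ → (ℕ → Finset ℕ) → ℕ) (p : Loc) (σ : List ℕ) : Prop :=
  p.len = pos σ ∧ nd π p.s σ.length = σ

/-- the node `τ` can be reached from `σ` by a slalom which captures the reals of `F` -/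
def Reach (pos : List ℕ → ℕ) (π : List ℕ → (ℕ → Finset ℕ) → ℕ) (σ τ : List ℕ)
    (F : Set (ℕ → ℕ)) : Prop :=
  ∃ A : ℕ → Finset ℕ, (∀ n, pos σ ≤ n → n < pos τ → (A n).card ≤ n ∧ ∀ f ∈ F, f n ∈ A n) ∧
    ∃ k, go π A σ k = τ

/-- a shorter stem and another set of reals -/
def cut (q : Loc) (N : ℕ) (hN : N ≤ q.len) (H : Finset (ℕ → ℕ)) (hH : H.card ≤ N) : Loc :=
  ⟨N, q.s, H, fun i hi => q.card_s i (by omega), hH⟩

theorem cut_le {p q : Loc} (h : q ≤ p) {N : ℕ} (hN : N ≤ q.len) {H : Finset (ℕ → ℕ)}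
    (hH : H.card ≤ N) (hp : p.len ≤ N) (hF : p.F ⊆ H) : cut q N hN H hH ≤ p :=
  ⟨hp, h.2.1, hF, fun f hf i a b => h.2.2.2 f hf i a (by
    have : i < N := b
    omega)⟩

section

variable (R : Reading pos π)

include R in
theorem nd_le {p q : Loc} (h : q ≤ p) {σ : List ℕ} (hσ : pos σ ≤ p.len)
    (hp : nd π p.s σ.length = σ) : nd π q.s σ.length = σ :=
  nd_congr R (fun n hn => (h.2.1 n (by omega)).symm) hp

include R in
theorem At.le {p q : Loc} (h : q ≤ p) {σ : List ℕ} (hp : At pos π p σ) :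
    nd π q.s σ.length = σ :=
  nd_le R h hp.1.ge hp.2

include R in
theorem length_le_of_pos {A : ℕ → Finset ℕ} {σ τ : List ℕ} (h : nd π A σ.length = σ)
    (h' : nd π A τ.length = τ) (hp : pos σ ≤ pos τ) : σ.length ≤ τ.length := by
  by_contra hcon
  push Not at hcon
  have h1 := path h' h hcon.le
  have h2 := pos_go R A τ (σ.length - τ.length)
  rw [h1] at h2
  omega

include R in
/-- lengthen a condition to a long node -/
theorem long (p : Loc) (L : ℕ) : ∃ q ≤ p, q.F = p.F ∧ ∃ σ, At pos π q σ ∧ L ≤ σ.length := by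
  classical
  let A : ℕ → Finset ℕ := fun i => if i < p.len then p.s i else p.F.image fun f => f i
  let σ := nd π A (p.len + L)
  have hl : σ.length = p.len + L := nd_length _ _
  have hpos := length_le_pos R σ
  have hc : ∀ i, p.len ≤ i → i < pos σ → (A i).card ≤ i := by
    intro i h1 _
    show (if i < p.len then p.s i else p.F.image fun f => f i).card ≤ i
    rw [if_neg (by omega)]
    exact (Finset.card_image_le).trans (p.card_F.trans h1)
  have hF := p.card_F
  refine ⟨p.ext (pos σ) A p.F hc (by omega), p.ext_le _ _ _ _ _ (by omega)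
    (Finset.Subset.refl _) ?_, rfl, σ, ⟨rfl, ?_⟩, by omega⟩
  · intro f hf i h1 _
    show f i ∈ (if i < p.len then p.s i else p.F.image fun f => f i)
    rw [if_neg (by omega)]
    exact Finset.mem_image_of_mem _ hf
  · have h1 : (p.ext (pos σ) A p.F hc (by omega)).s = A := by
      funext i
      show (if i < p.len then p.s i else A i) = A i
      by_cases hi : i < p.len
      · rw [if_pos hi]
        show p.s i = (if i < p.len then p.s i else p.F.image fun f => f i)
        rw [if_pos hi]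
      · rw [if_neg hi]
    rw [h1, hl]

include R in
theorem transplant {p q r : Loc} {σ τ : List ℕ} (hp : At pos π p σ) (hq : At pos π q σ)
    (hF : p.F = q.F) (hr : r ≤ q) (hrτ : At pos π r τ) : ∃ p1 ≤ p, p1.F = r.F ∧ At pos π p1 τ := by
  obtain ⟨p1, hp1, h1, h2, h3, h4⟩ := Loc.transplant (hp.1.trans hq.1.symm) hF hr
  refine ⟨p1, hp1, h2, h1.trans hrτ.1, ?_⟩
  have e1 := hp.le R hp1
  have e2 := hq.le R hr
  have hle : σ.length ≤ τ.length := length_le_of_pos R e2 hrτ.2 (by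
    rw [← hrτ.1, ← hq.1]
    exact hr.1)
  have e3 := path e2 hrτ.2 hle
  have e4 : go π p1.s σ (τ.length - σ.length) = go π r.s σ (τ.length - σ.length) :=
    go_congr R fun n a _ => (h4 n (by rw [hp.1]; exact a)).symm
  have e5 := go_nd e1 (τ.length - σ.length)
  rw [Nat.add_sub_cancel' hle] at e5
  rw [e5, e4, e3]

/-- invariance under change of the stem with the same node -/
def Inv (pos : List ℕ → ℕ) (π : List ℕ → (ℕ → Finset ℕ) → ℕ) (a : Set Loc) : Prop :=
  ∀ (σ : List ℕ) (p q : Loc), At pos π p σ → At pos π q σ → p.F = q.F → p ∈ a → q ∈ a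

include R in
theorem val_reg (σ : List ℕ) : Reg (val pos π σ) := by
  intro p
  constructor
  · intro hp q hq
    exact ⟨q, q.refl, fun r hr => hp r (Loc.trans hr hq)⟩
  · intro hp q hq hlen
    obtain ⟨r, hr, hra⟩ := hp q hq
    obtain ⟨ν, hν⟩ : ∃ ν, ν = nd π q.s σ.length := ⟨_, rfl⟩
    have hνl : ν.length = σ.length := by rw [hν]; exact nd_length _ _
    have h1 : nd π q.s ν.length = ν := by rw [hνl]; exact hν.symm
    rw [← hν] at hlen ⊢
    have h2 := nd_le R hr hlen h1
    rw [hνl] at h2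
    have h3 := hra r r.refl (by rw [h2]; exact hlen.trans hr.1)
    rw [← h3, h2]

include R in
theorem inv_sub : IsSub {a | Reg a ∧ Inv pos π a} := by
  refine ⟨fun a ha => ha.1, ?_, ?_⟩
  · rintro a ⟨ha, hI⟩
    refine ⟨ha.neg, ?_⟩
    intro σ p q hp hq hF hpa r hr hra
    obtain ⟨r1, hr1, -, τ, hτ, -⟩ := long R r 0
    obtain ⟨p1, hp1, h1, h2⟩ := transplant R hp hq hF (Loc.trans hr1 hr) hτ
    exact hpa p1 hp1 (hI τ r1 p1 hτ h2 h1.symm (ha.down hr1 hra))
  · intro S hS
    refine ⟨Reg.sInter fun a ha => (hS ha).1, ?_⟩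
    intro σ p q hp hq hF hpa a ha
    exact (hS ha).2 σ p q hp hq hF (hpa a ha)

include R in
theorem val_inv (ρ : List ℕ) : Inv pos π (val pos π ρ) := by
  intro σ p q hp hq hF hpa r hr hlen
  obtain ⟨r1, hr1, -, τ, hτ, hτl⟩ := long R r ρ.length
  obtain ⟨p1, hp1, h1, h2⟩ := transplant R hp hq hF (Loc.trans hr1 hr) hτ
  obtain ⟨ν, hν⟩ : ∃ ν, ν = nd π r.s ρ.length := ⟨_, rfl⟩
  have hνl : ν.length = ρ.length := by rw [hν]; exact nd_length _ _
  rw [← hν] at hlen ⊢
  have e1 : nd π r1.s ν.length = ν := nd_le R hr1 hlen (by rw [hνl]; exact hν.symm)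
  have e2 : ν <:+ τ := path_suf e1 hτ.2 (by omega)
  have e3 : nd π p1.s ν.length = ν := nd_of_suf h2.2 e2
  rw [hνl] at e3
  rw [← e3]
  refine hpa p1 hp1 ?_
  rw [e3, h2.1]
  exact pos_suf R e2

include R in
theorem gen_inv {a : Set Loc} (ha : a ∈ subf pos π) : Reg a ∧ Inv pos π a := by
  refine ha _ (inv_sub R) ?_
  rintro _ ⟨σ, rfl⟩
  exact ⟨val_reg R σ, val_inv R σ⟩

/-! ### Reachable nodes -/

theorem Reach.mono {σ τ : List ℕ} {F G : Set (ℕ → ℕ)} (h : Reach pos π σ τ G)
    (hFG : ∀ f ∈ F, ∃ g ∈ G, ∀ n < pos τ, g n = f n) : Reach pos π σ τ F := by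
  obtain ⟨A, hA, hk⟩ := h
  refine ⟨A, fun n h1 h2 => ⟨(hA n h1 h2).1, fun f hf => ?_⟩, hk⟩
  obtain ⟨g, hg, hgf⟩ := hFG f hf
  rw [← hgf n h2]
  exact (hA n h1 h2).2 g hg

theorem Reach.subset {σ τ : List ℕ} {F G : Set (ℕ → ℕ)} (h : Reach pos π σ τ G)
    (hFG : F ⊆ G) : Reach pos π σ τ F :=
  h.mono fun f hf => ⟨f, hFG hf, fun _ _ => rfl⟩

theorem Reach.refl (σ : List ℕ) (F : Set (ℕ → ℕ)) : Reach pos π σ σ F :=
  ⟨fun _ => ∅, fun n h1 h2 => by omega, 0, rfl⟩

include R in
theorem reach_of_le {p q : Loc} {σ τ : List ℕ} (hp : At pos π p σ) (hq : q ≤ p)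
    (hτ : nd π q.s τ.length = τ) (hl : pos τ ≤ q.len) (hle : σ.length ≤ τ.length) :
    Reach pos π σ τ (p.F : Set (ℕ → ℕ)) := by
  refine ⟨q.s, fun n h1 h2 => ⟨q.card_s n (by omega), fun f hf => ?_⟩, _,
    path (hp.le R hq) hτ hle⟩
  exact hq.2.2.2 f hf n (by rw [hp.1]; exact h1) (by omega)

include R in
theorem ext_of_reach {p : Loc} {σ τ : List ℕ} (hp : At pos π p σ) {H : Finset (ℕ → ℕ)}
    (h : Reach pos π σ τ (H : Set (ℕ → ℕ))) (hF : p.F ⊆ H) (hH : H.card ≤ pos τ) :
    ∃ q ≤ p, At pos π q τ ∧ q.F = H := by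
  obtain ⟨A, hA, k, hk⟩ := h
  have hpos : pos σ ≤ pos τ := by
    rw [← hk]
    exact (Nat.le_add_right _ _).trans (pos_go R A σ k)
  refine ⟨p.ext (pos τ) A H (fun i h1 h2 => (hA i (by rw [← hp.1]; exact h1) h2).1) hH,
    p.ext_le _ _ _ _ _ (by rw [hp.1]; exact hpos) hF
      (fun f hf i h1 h2 => (hA i (by rw [← hp.1]; exact h1) h2).2 f (hF hf)), ⟨rfl, ?_⟩, rfl⟩
  obtain ⟨q, hq⟩ : ∃ q, q = p.ext (pos τ) A H
    (fun i h1 h2 => (hA i (by rw [← hp.1]; exact h1) h2).1) hH := ⟨_, rfl⟩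
  rw [← hq]
  have hqs : ∀ n, q.s n = if n < p.len then p.s n else A n := by
    intro n
    rw [hq]
    rfl
  have e1 : nd π q.s σ.length = σ := nd_congr R (fun n hn => by
    rw [hqs, if_pos (by rw [hp.1]; exact hn)]) hp.2
  have e2 : go π q.s σ k = go π A σ k := go_congr R fun n a _ => by
    rw [hqs, if_neg (by rw [hp.1]; omega)]
  have e3 := go_nd e1 k
  have e4 : τ.length = σ.length + k := by
    rw [← hk, go_length]
  rw [e4, e3, e2, hk]

end

end Pool.Agent.helper45.LOCO
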