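import Pool.Agent.helper45.LOC.Read
import Pool.Agent.helper45.LOCO.Final

/-!
# Subforcings without memory
-/

set_option autoImplicit false

namespace Pool.Agent.helper45.LOCO

open Set Filter Pool.Agent.helper45.LOC

theorem gen_sub (S : Set (Set Loc)) (hS : ∃ A, IsSub A ∧ S ⊆ A) : IsSub (gen S) := by
  obtain ⟨B, hB, hSB⟩ := hS
  exact ⟨fun a ha => hB.reg a (ha B hB hSB), fun a ha A hA hS => hA.neg_mem a (ha A hA hS),
    fun T hT A hA hS => hA.sInter_mem T fun a ha => hT ha A hA hS⟩

theorem gen_le {S T : Set (Set Loc)} (h : S ⊆ gen T) : gen S ⊆ gen T := by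
  intro a ha A hA hT
  exact ha A hA fun b hb => h hb A hA hT

section

variable {pos : List ℕ → ℕ} {π : List ℕ → (ℕ → Finset ℕ) → ℕ} (R : Reading pos π)
variable (hlen : ∀ σ τ : List ℕ, σ.length = τ.length → pos σ = pos τ ∧ π σ = π τ)

/-- the endpoints of the blocks -/
def ee (pos : List ℕ → ℕ) (j : ℕ) : ℕ := pos (List.replicate j 0)

/-- the value on the block `j` -/
def pp (π : List ℕ → (ℕ → Finset ℕ) → ℕ) (j : ℕ) (A : ℕ → Finset ℕ) : ℕ :=
  π (List.replicate j 0) A

include hlen in
theorem pos_ee (σ : List ℕ) : pos σ = ee pos σ.length :=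
  (hlen _ _ (by simp)).1

include hlen in
theorem pi_pp (σ : List ℕ) (A : ℕ → Finset ℕ) : π σ A = pp π σ.length A := by
  have h := (hlen σ (List.replicate σ.length 0) (by simp)).2
  show π σ A = π (List.replicate σ.length 0) A
  rw [← h]

include R in
theorem ee_mono : StrictMono (ee pos) := strictMono_nat_of_lt_succ fun j => by
  show pos (List.replicate j 0) < pos (List.replicate (j + 1) 0)
  rw [List.replicate_succ]
  exact R.lt _ _

include R hlen in
theorem pp_local : Local (ee pos) (pp π) := by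
  intro j A A' h
  refine (R.loc (List.replicate j 0) A A' fun n h1 h2 => h n h1 ?_).symm
  rw [pos_ee hlen (π (List.replicate j 0) A :: List.replicate j 0)] at h2
  simpa using h2

include hlen in
theorem nd_succ (A : ℕ → Finset ℕ) (j : ℕ) : nd π A (j + 1) = pp π j A :: nd π A j := by
  show π (go π A [] j) A :: go π A [] j = _
  rw [pi_pp hlen]
  have : (go π A [] j).length = j := nd_length A j
  rw [this]
  rfl

include hlen in
theorem pos_nd (A : ℕ → Finset ℕ) (j : ℕ) : pos (nd π A j) = ee pos j := by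
  rw [pos_ee hlen, nd_length]

include R hlen in
theorem val_cons (x : ℕ) (σ : List ℕ) :
    val pos π (x :: σ) = val pos π σ ∩ LOC.val (ee pos) (pp π) σ.length x := by
  have hm := ee_mono R
  ext p
  constructor
  · intro hp
    constructor
    · intro q hq hl
      obtain ⟨r, hr, hrl, -⟩ := q.long (q.len + ee pos (σ.length + 1)) (by omega)
      have h1 := hp r (Loc.trans hr hq) (by
        show pos (nd π r.s (σ.length + 1)) ≤ r.len
        rw [pos_nd hlen]
        omega)
      have h2 : nd π r.s (σ.length + 1) = x :: σ := h1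
      rw [nd_succ hlen] at h2
      have h3 : nd π r.s σ.length = σ := (List.cons_eq_cons.1 h2).2
      obtain ⟨ν, hν⟩ : ∃ ν, ν = nd π q.s σ.length := ⟨_, rfl⟩
      have hνl : ν.length = σ.length := by rw [hν]; exact nd_length _ _
      have h4 := nd_le R hr (σ := ν) (by rw [hν]; exact hl) (by rw [hνl]; exact hν.symm)
      rw [hνl, h3] at h4
      rw [← hν]
      exact h4.symm
    · intro q hq hl
      have h1 : nd π q.s (σ.length + 1) = x :: σ := hp q hq (by
        show pos (nd π q.s (σ.length + 1)) ≤ q.len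
        rw [pos_nd hlen]
        exact hl)
      rw [nd_succ hlen] at h1
      exact (List.cons_eq_cons.1 h1).1
  · rintro ⟨h1, h2⟩ q hq hl
    replace hl : pos (nd π q.s (σ.length + 1)) ≤ q.len := hl
    rw [pos_nd hlen] at hl
    have h3 : nd π q.s σ.length = σ := h1 q hq (by
      rw [pos_nd hlen]
      exact (hm (Nat.lt_succ_self _)).le.trans hl)
    have h4 : pp π σ.length q.s = x := h2 q hq hl
    show nd π q.s (σ.length + 1) = x :: σ
    rw [nd_succ hlen, h3, h4]

include R hlen in
theorem subf_eq : subf pos π = LOC.subf (ee pos) (pp π) := by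
  have hm := ee_mono R
  have hloc := pp_local R hlen
  apply Subset.antisymm
  · refine gen_le ?_
    rintro _ ⟨σ, rfl⟩
    intro A hA hS
    induction σ with
    | nil =>
      have : val pos π [] = ⋂₀ (∅ : Set (Set Loc)) := by
        ext p
        constructor
        · intro _ a ha
          exact absurd ha (notMem_empty a)
        · intro _ q _ _
          rfl
      rw [this]
      exact hA.sInter_mem ∅ (empty_subset _)
    | cons x σ ih =>
      rw [val_cons R hlen]
      have h := hA.inter_mem (fun b : Bool => if b then val pos π σ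
        else LOC.val (ee pos) (pp π) σ.length x) (by
          intro b
          cases b
          · exact hS ⟨_, _, rfl⟩
          · exact ih)
      have h2 : (⋂ b : Bool, if b then val pos π σ
          else LOC.val (ee pos) (pp π) σ.length x) =
          val pos π σ ∩ LOC.val (ee pos) (pp π) σ.length x := by
        ext p
        rw [mem_iInter]
        constructor
        · intro h
          exact ⟨h true, h false⟩
        · rintro ⟨h1, h2⟩ b
          cases b
          · exact h2
          · exact h1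
      rw [h2] at h
      exact h
  · refine gen_le ?_
    rintro _ ⟨j, x, rfl⟩
    intro A hA hS
    let T : Set (Set Loc) := {a | ∃ σ : List ℕ, σ.length = j ∧ a = val pos π (x :: σ)}
    have hT : T ⊆ A := by
      rintro _ ⟨σ, -, rfl⟩
      exact hS ⟨_, rfl⟩
    have h1 := hA.join_mem hT
    have h2 : {p : Loc | ∀ q ≤ p, ∃ a ∈ T, ∃ r ≤ q, r ∈ a} = LOC.val (ee pos) (pp π) j x := by
      ext p
      constructor
      · intro hp
        rw [LOC.val_reg hm hloc j x p]
        intro q hq
        obtain ⟨_, ⟨σ, hσ, rfl⟩, r, hr, hrv⟩ := hp q hq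
        rw [val_cons R hlen, hσ] at hrv
        exact ⟨r, hr, hrv.2⟩
      · intro hp q hq
        obtain ⟨r, hr, hrl, -⟩ := q.long (q.len + ee pos (j + 1)) (by omega)
        refine ⟨_, ⟨nd π r.s j, nd_length _ _, rfl⟩, r, hr, ?_⟩
        intro r' hr' _
        have h3 : nd π r.s (j + 1) = x :: nd π r.s j := by
          rw [nd_succ hlen]
          have : pp π j r.s = x := hp r (Loc.trans hr hq) (by omega)
          rw [this]
        have h4 : (x :: nd π r.s j).length = j + 1 := by
          rw [List.length_cons, nd_length]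
        refine nd_le R hr' ?_ (by rw [h4]; exact h3)
        rw [← h3, pos_nd hlen]
        omega
    rw [← h2]
    exact h1

/-- a name below `p0` gives a name -/
theorem globalize {A : Set (Set Loc)} (hA : IsSub A) {p0 : Loc} (h : AddsDominating A p0) :
    LOC.AddsDominating A := by
  classical
  obtain ⟨d, hd, hdom⟩ := h
  let U : ℕ → Set Loc := fun n => {p : Loc | ∀ q ≤ p, ∃ a ∈ range (d n), ∃ r ≤ q, r ∈ a}
  have hU : ∀ n, U n ∈ A := fun n => hA.join_mem (by
    rintro _ ⟨m, rfl⟩
    exact hd.mem n m)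
  have hNU : ∀ n, LOC.neg (U n) ∈ A := fun n => hA.neg_mem _ (hU n)
  let V : ℕ → Set Loc := fun n =>
    {p : Loc | ∀ q ≤ p, ∃ a ∈ ({d n 0, LOC.neg (U n)} : Set (Set Loc)), ∃ r ≤ q, r ∈ a}
  have hV : ∀ n, V n ∈ A := fun n => hA.join_mem (by
    rintro a (rfl | rfl)
    · exact hd.mem n 0
    · exact hNU n)
  have hdU : ∀ n m p, p ∈ d n m → p ∈ U n := by
    intro n m p hp q hq
    exact ⟨_, ⟨m, rfl⟩, q, q.refl, (hA.reg _ (hd.mem n m)).down hq hp⟩
  have hVcase : ∀ n p, p ∈ V n → ∃ r ≤ p, r ∈ d n 0 ∨ r ∈ LOC.neg (U n) := by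
    intro n p hp
    obtain ⟨a, ha, r, hr, hra⟩ := hp p p.refl
    rcases ha with rfl | rfl
    · exact ⟨r, hr, Or.inl hra⟩
    · exact ⟨r, hr, Or.inr hra⟩
  have hdV : ∀ n p, p ∈ d n 0 → p ∈ V n := fun n p hp q hq =>
    ⟨_, Or.inl rfl, q, q.refl, (hA.reg _ (hd.mem n 0)).down hq hp⟩
  have hNV : ∀ n p, p ∈ LOC.neg (U n) → p ∈ V n := fun n p hp q hq =>
    ⟨_, Or.inr rfl, q, q.refl, (hA.reg _ (hNU n)).down hq hp⟩
  have hdisj : ∀ n m p, m ≠ 0 → p ∈ V n → p ∉ d n m := by
    intro n m p hm hp hpd
    obtain ⟨r, hr, hr1 | hr1⟩ := hVcase n p hp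
    · have h1 := (hA.reg _ (hd.mem n m)).down hr hpd
      have h2 := hd.disj n 0 m (Ne.symm hm)
      have h3 : r ∈ d n 0 ∩ d n m := ⟨hr1, h1⟩
      rw [h2] at h3
      exact notMem_empty r h3
    · have h1 := (hA.reg _ (hd.mem n m)).down hr hpd
      exact hr1 r r.refl (hdU n m r h1)
  refine ⟨fun n m => if m = 0 then V n else d n m, ⟨fun n m => ?_, fun n m m' hmm => ?_,
    fun n p => ?_⟩, p0, ?_⟩
  · show (if m = 0 then V n else d n m) ∈ A
    split_ifs
    · exact hV n
    · exact hd.mem n m
  · rw [eq_empty_iff_forall_notMem]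
    rintro p ⟨hp, hp'⟩
    replace hp : p ∈ (if m = 0 then V n else d n m) := hp
    replace hp' : p ∈ (if m' = 0 then V n else d n m') := hp'
    split_ifs at hp hp' with h1 h2 h2
    · exact hmm (h1.trans h2.symm)
    · exact hdisj n m' p h2 hp hp'
    · exact hdisj n m p h1 hp' hp
    · have h3 := hd.disj n m m' hmm
      have h4 : p ∈ d n m ∩ d n m' := ⟨hp, hp'⟩
      rw [h3] at h4
      exact notMem_empty p h4
  · by_cases h1 : p ∈ LOC.neg (U n)
    · refine ⟨p, p.refl, 0, ?_⟩
      show p ∈ (if (0 : ℕ) = 0 then V n else d n 0)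
      rw [if_pos rfl]
      exact hNV n p h1
    · have h2 : ¬ ∀ q ≤ p, q ∉ U n := h1
      push Not at h2
      obtain ⟨q, hq, hqU⟩ := h2
      obtain ⟨_, ⟨m, rfl⟩, r, hr, hrd⟩ := hqU q q.refl
      refine ⟨r, Loc.trans hr hq, m, ?_⟩
      show r ∈ (if m = 0 then V n else d n m)
      split_ifs with h3
      · rw [h3] at hrd
        exact hdV n r hrd
      · exact hrd
  · intro x p hp
    obtain ⟨q, hq, N, hN⟩ := hdom x p hp
    refine ⟨q, hq, N, fun n hn m r hr hrd => ?_⟩
    replace hrd : r ∈ (if m = 0 then V n else d n m) := hrd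
    split_ifs at hrd with h1
    · obtain ⟨r1, hr1, h2 | h2⟩ := hVcase n r hrd
      · rw [h1]
        exact hN n hn 0 r1 (Loc.trans hr1 hr) h2
      · exfalso
        have hr1p : r1 ≤ p0 := Loc.trans hr1 (Loc.trans hr (Loc.trans hq hp))
        obtain ⟨r2, hr2, m', hm'⟩ := hd.total n r1 hr1p
        exact h2 r2 hr2 (hdU n m' r2 hm')
    · exact hN n hn m r hr hrd

include R hlen in
/-- without memory, a dominating real below some condition gives a Hechler real below every
condition -/
theorem main' (h : ∃ p0, AddsDominating (subf pos π) p0) (p0 : Loc) :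
    AddsHechler (subf pos π) p0 := by
  obtain ⟨p1, h1⟩ := h
  have hsub : IsSub (subf pos π) := gen_sub _ ⟨_, inv_sub R, by
    rintro _ ⟨σ, rfl⟩
    exact ⟨val_reg R σ, val_inv R σ⟩⟩
  have h2 := globalize hsub h1
  rw [subf_eq R hlen] at h2 ⊢
  obtain ⟨z, hz, hH⟩ := LOC.main (ee_mono R) (pp_local R hlen) h2
  exact ⟨z, ⟨hz.mem, hz.disj, fun n p _ => hz.total n p⟩, fun E hE p _ => hH E hE p⟩

end

end Pool.Agent.helper45.LOCO
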