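import Pool.Agent.helper45.LOC.Bound

/-!
# A colouring lemma

If `W G` is a set of naturals which depends continuously on the finite sequence `G` of reals and
any two of these sets have infinite intersection, then the sets `W G` are uniformly bounded: there
is a function `h` such that each `W G` meets `[m, h m)` for almost all `m`.
-/

set_option autoImplicit false

namespace Pool.Agent.helper45.LOCO

open Set Filter Pool.Agent.helper45.LOC

/-- a limit of approximations -/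
theorem limit {K : ℕ} (G : ℕ → Fin K → ℕ → ℕ) (l : ℕ → ℕ) (hl : StrictMono l)
    (hG : ∀ i k, ∀ n < l i, G (i + 1) k n = G i k n) :
    ∃ H : Fin K → ℕ → ℕ, ∀ i k, ∀ n < l i, H k n = G i k n := by
  have h1 : ∀ i j, i ≤ j → ∀ k, ∀ n < l i, G j k n = G i k n := by
    intro i j hij
    induction j, hij using Nat.le_induction with
    | base => intro k n _; rfl
    | succ j hij ih =>
      intro k n hn
      rw [hG j k n (hn.trans_le (hl.monotone hij)), ih k n hn]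
  refine ⟨fun k n => G (n + 1) k n, fun i k n hn => ?_⟩
  show G (n + 1) k n = G i k n
  have h2 := hl.id_le (n + 1)
  simp only [id] at h2
  rcases le_total (n + 1) i with h | h
  · exact (h1 (n + 1) i h k n (by omega)).symm
  · exact h1 i (n + 1) h k n hn

section

variable {K : ℕ} (W : (Fin K → ℕ → ℕ) → Set ℕ)

/-- the sets `W G`, `G ∈ S`, are uniformly bounded -/
def Bd (S : Set (Fin K → ℕ → ℕ)) : Prop :=
  ∃ h : ℕ → ℕ, ∀ G ∈ S, ∃ m0, ∀ m ≥ m0, ∃ a ∈ W G, m ≤ a ∧ a < h m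

theorem Bd.mono {S T : Set (Fin K → ℕ → ℕ)} (h : Bd W T) (hST : S ⊆ T) : Bd W S := by
  obtain ⟨g, hg⟩ := h
  exact ⟨g, fun G hG => hg G (hST hG)⟩

theorem Bd.iUnion {ι : Type} [Countable ι] {S : ι → Set (Fin K → ℕ → ℕ)}
    (h : ∀ i, Bd W (S i)) : Bd W (⋃ i, S i) := by
  choose g hg using h
  obtain ⟨x, hx⟩ := exists_above g
  refine ⟨x, fun G hG => ?_⟩
  obtain ⟨i, hi⟩ := mem_iUnion.1 hG
  obtain ⟨m0, hm0⟩ := hg i G hi
  obtain ⟨m1, hm1⟩ := eventually_atTop.1 (hx i)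
  refine ⟨max m0 m1, fun m hm => ?_⟩
  obtain ⟨a, ha, h1, h2⟩ := hm0 m ((le_max_left _ _).trans hm)
  exact ⟨a, ha, h1, h2.trans_le (hm1 m ((le_max_right _ _).trans hm))⟩

/-- the sequences which agree with `G` below `l` -/
def cyl (G : Fin K → ℕ → ℕ) (l : ℕ) : Set (Fin K → ℕ → ℕ) := {G' | ∀ k, ∀ n < l, G' k n = G k n}

/-- the kernel -/
def Ker : Set (Fin K → ℕ → ℕ) := {G | ∀ l, ¬ Bd W (cyl G l)}

theorem bd_compl_ker : Bd W (Ker W)ᶜ := by
  classical
  let C : ((l : ℕ) × (Fin K → Fin l → ℕ)) → Set (Fin K → ℕ → ℕ) :=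
    fun t => {G | ∀ (k : Fin K) (i : Fin t.1), G k (i : ℕ) = t.2 k i}
  let S : ((l : ℕ) × (Fin K → Fin l → ℕ)) → Set (Fin K → ℕ → ℕ) :=
    fun t => if Bd W (C t) then C t else ∅
  have h1 : Bd W (⋃ t, S t) := by
    refine Bd.iUnion W fun t => ?_
    show Bd W (if Bd W (C t) then C t else ∅)
    split_ifs with h
    · exact h
    · exact ⟨fun m => m, fun G hG => absurd hG (notMem_empty G)⟩
  refine h1.mono W ?_
  intro G hG
  have hG' : ¬ ∀ l, ¬ Bd W (cyl G l) := hG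
  push Not at hG'
  obtain ⟨l, hl⟩ := hG'
  have h2 : cyl G l = C ⟨l, fun k i => G k i⟩ := by
    ext G'
    constructor
    · intro h k i
      exact h k i i.2
    · intro h k n hn
      exact h k ⟨n, hn⟩
  refine mem_iUnion.2 ⟨⟨l, fun k i => G k i⟩, ?_⟩
  show G ∈ (if Bd W (C ⟨l, fun k i => G k i⟩) then C ⟨l, fun k i => G k i⟩ else ∅)
  rw [if_pos (by rw [← h2]; exact hl)]
  exact fun k i => rfl

/-- at `(G, l)` the sets `W G'` can have arbitrarily long gaps which start at `m` -/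
def Gap (G : Fin K → ℕ → ℕ) (l m : ℕ) : Prop :=
  ∀ M, ∃ G' ∈ Ker W, G' ∈ cyl G l ∧ ∀ a, m ≤ a → a < M → a ∉ W G'

theorem exists_gap {G : Fin K → ℕ → ℕ} (hG : G ∈ Ker W) (l m0 : ℕ) :
    ∃ m, m0 < m ∧ Gap W G l m := by
  by_contra hcon
  push Not at hcon
  have h1 : ∀ m, ∃ M, m0 < m → ∀ G' ∈ Ker W, G' ∈ cyl G l → ∃ a, m ≤ a ∧ a < M ∧ a ∈ W G' := by
    intro m
    by_cases hm : m0 < m
    · have h2 := hcon m hm
      unfold Gap at h2
      push Not at h2
      obtain ⟨M, hM⟩ := h2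
      exact ⟨M, fun _ => hM⟩
    · exact ⟨0, fun h => absurd h hm⟩
  choose M hM using h1
  have h2 : Bd W (cyl G l ∩ Ker W) := by
    refine ⟨M, fun G' hG' => ⟨m0 + 1, fun m hm => ?_⟩⟩
    obtain ⟨a, h3, h4, h5⟩ := hM m (by omega) G' hG'.2 hG'.1
    exact ⟨a, h5, h3, h4⟩
  have h3 : Bd W (⋃ b : Bool, if b then cyl G l ∩ Ker W else (Ker W)ᶜ) := by
    refine Bd.iUnion W fun b => ?_
    cases b
    · exact bd_compl_ker W
    · exact h2
  refine hG l (h3.mono W ?_)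
  intro G' hG'
  by_cases h4 : G' ∈ Ker W
  · exact mem_iUnion.2 ⟨true, ⟨hG', h4⟩⟩
  · exact mem_iUnion.2 ⟨false, h4⟩

/-- **Colouring lemma.** -/
theorem color (N : ℕ → ℕ)
    (hN : ∀ a G G', (∀ k, ∀ n < N a, G k n = G' k n) → a ∈ W G → a ∈ W G')
    (hW : ∀ G G', (W G ∩ W G').Infinite) : Bd W univ := by
  classical
  by_contra hcon
  obtain ⟨G0, hG0⟩ : (Ker W).Nonempty := by
    rw [nonempty_iff_ne_empty]
    intro h
    apply hcon
    have := bd_compl_ker W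
    rwa [h, compl_empty] at this
  let D := {D : (Fin K → ℕ → ℕ) × ℕ × ℕ // Gap W D.1 D.2.1 D.2.2}
  have step : ∀ (d : D) (m' : ℕ), ∃ d2 : D, d2.1.1 ∈ cyl d.1.1 d.1.2.1 ∧ d.1.2.1 < d2.1.2.1 ∧
      (∀ a < m', N a ≤ d2.1.2.1) ∧ (∀ a, d.1.2.2 ≤ a → a < m' → a ∉ W d2.1.1) ∧
      m' < d2.1.2.2 := by
    rintro ⟨⟨G, l, m⟩, hd⟩ m'
    obtain ⟨G', h1, h2, h3⟩ := hd m'
    obtain ⟨m2, h4, h5⟩ := exists_gap W h1 (l + 1 + (Finset.range m').sup N) m'
    refine ⟨⟨⟨G', l + 1 + (Finset.range m').sup N, m2⟩, h5⟩, h2, ?_, ?_, h3, h4⟩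
    · show l < l + 1 + (Finset.range m').sup N
      omega
    · intro a ha
      show N a ≤ l + 1 + (Finset.range m').sup N
      have := Finset.le_sup (f := N) (Finset.mem_range.2 ha)
      omega
  choose st h1 h2 h3 h4 h5 using step
  obtain ⟨m0, -, hm0⟩ := exists_gap W hG0 0 0
  let d0 : D := ⟨⟨G0, 0, m0⟩, hm0⟩
  let u : ℕ → D × D := fun j => Nat.rec (d0, d0) (fun _ w => (w.2, st w.1 w.2.1.2.2)) j
  let d : ℕ → D := fun j => (u j).1
  have hd : ∀ j, d (j + 2) = st (d j) (d (j + 1)).1.2.2 := fun j => rfl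
  have hd0 : d 0 = d0 := rfl
  have hd1 : d 1 = d0 := rfl
  let m : ℕ → ℕ := fun j => (d j).1.2.2
  have hm2 : ∀ j, m (j + 1) < m (j + 2) := by
    intro j
    show (d (j + 1)).1.2.2 < (d (j + 2)).1.2.2
    rw [hd]
    exact h5 _ _
  have hlim : ∀ ε : ℕ, ∃ H : Fin K → ℕ → ℕ, ∀ i k, ∀ n < (d (2 * i + ε)).1.2.1,
      H k n = (d (2 * i + ε)).1.1 k n := by
    intro ε
    refine limit (fun i => (d (2 * i + ε)).1.1) (fun i => (d (2 * i + ε)).1.2.1) ?_ ?_
    · refine strictMono_nat_of_lt_succ fun i => ?_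
      have e1 : 2 * (i + 1) + ε = (2 * i + ε) + 2 := by ring
      show (d (2 * i + ε)).1.2.1 < (d (2 * (i + 1) + ε)).1.2.1
      rw [e1, hd]
      exact h2 _ _
    · intro i k n hn
      have e1 : 2 * (i + 1) + ε = (2 * i + ε) + 2 := by ring
      show (d (2 * (i + 1) + ε)).1.1 k n = (d (2 * i + ε)).1.1 k n
      rw [e1, hd]
      exact h1 _ _ k n hn
  have hmiss : ∀ (ε : ℕ) (H : Fin K → ℕ → ℕ), (∀ i k, ∀ n < (d (2 * i + ε)).1.2.1,
      H k n = (d (2 * i + ε)).1.1 k n) → ∀ i a, m (2 * i + ε) ≤ a → a < m (2 * i + ε + 1) →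
      a ∉ W H := by
    intro ε H hH i a ha1 ha2 haW
    have e1 : 2 * (i + 1) + ε = (2 * i + ε) + 2 := by ring
    have e2 := hH (i + 1)
    rw [e1, hd] at e2
    refine h4 (d (2 * i + ε)) (d (2 * i + ε + 1)).1.2.2 a ha1 ha2 (hN a H _ ?_ haW)
    intro k n hn
    exact e2 k n (hn.trans_le (h3 _ _ a ha2))
  obtain ⟨H0, hH0⟩ := hlim 0
  obtain ⟨H1, hH1⟩ := hlim 1
  refine hW H0 H1 ((finite_Iio (m 0)).subset fun a ha => ?_)
  by_contra hcon2
  have hcon3 : m 0 ≤ a := not_lt.1 hcon2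
  have hex : ∃ j, a < m (j + 1) := by
    have hgrow : ∀ j, j ≤ m (j + 1) := by
      intro j
      induction j with
      | zero => exact Nat.zero_le _
      | succ j ih => exact Nat.succ_le_of_lt (ih.trans_lt (hm2 j))
    exact ⟨a + 1, by have := hgrow (a + 1); omega⟩
  obtain ⟨j, hj, hmin⟩ : ∃ j, a < m (j + 1) ∧ ∀ i < j, ¬ a < m (i + 1) :=
    ⟨Nat.find hex, Nat.find_spec hex, fun i hi => Nat.find_min hex hi⟩
  have hja : m j ≤ a := by
    rcases Nat.eq_zero_or_pos j with rfl | hpos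
    · exact hcon3
    · have := hmin (j - 1) (by omega)
      rw [Nat.sub_add_cancel hpos] at this
      exact not_lt.1 this
  rcases Nat.even_or_odd' j with ⟨i, rfl | rfl⟩
  · exact hmiss 0 H0 hH0 i a hja hj ha.1
  · exact hmiss 1 H1 hH1 i a hja hj ha.2

/-- the colouring -/
theorem exists_color (N : ℕ → ℕ)
    (hN : ∀ a G G', (∀ k, ∀ n < N a, G k n = G' k n) → a ∈ W G → a ∈ W G')
    (hW : ∀ G G', (W G ∩ W G').Infinite) :
    ∃ Z : ℕ → ℕ, (∀ m, {a | Z a ≤ m}.Finite) ∧ ∀ G, ∃ f, ∀ k ≥ f, ∃ a ∈ W G, Z a = k := by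
  classical
  obtain ⟨h, hh⟩ := color W N hN hW
  let b : ℕ → ℕ := fun k => Nat.rec 0 (fun _ a => max (a + 1) (h a)) k
  have hb : ∀ k, b (k + 1) = max (b k + 1) (h (b k)) := fun k => rfl
  have hmono : StrictMono b := strictMono_nat_of_lt_succ fun k => by
    rw [hb]
    exact (Nat.lt_succ_self _).trans_le (le_max_left _ _)
  have hne : ∀ x, {k | x < b (k + 1)}.Nonempty := fun x => ⟨x, by
    have := hmono.id_le (x + 1)
    simp only [id] at this
    show x < b (x + 1)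
    omega⟩
  refine ⟨fun x => sInf {k | x < b (k + 1)}, fun m => ?_, fun G => ?_⟩
  · refine (finite_Iio (b (m + 1))).subset fun x hx => ?_
    have h1 : x < b (sInf {k | x < b (k + 1)} + 1) := Nat.sInf_mem (hne x)
    have h2 : sInf {k | x < b (k + 1)} ≤ m := hx
    exact h1.trans_le (hmono.monotone (Nat.add_le_add_right h2 1))
  · obtain ⟨m0, hm0⟩ := hh G (mem_univ G)
    refine ⟨m0, fun k hk => ?_⟩
    have h0 := hmono.id_le k
    simp only [id] at h0
    obtain ⟨a, ha, h1, h2⟩ := hm0 (b k) (by omega)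
    refine ⟨a, ha, le_antisymm (Nat.sInf_le ?_) ?_⟩
    · show a < b (k + 1)
      rw [hb]
      exact h2.trans_le (le_max_right _ _)
    · by_contra hcon
      push Not at hcon
      have h3 : a < b (sInf {k | a < b (k + 1)} + 1) := Nat.sInf_mem (hne a)
      have h4 : b (sInf {k | a < b (k + 1)} + 1) ≤ b k := hmono.monotone hcon
      omega

end

end Pool.Agent.helper45.LOCO
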