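import Pool.Agent.helper45.LOCO.Nodes

/-!
# Subforcings with memory: the machine which reads the Hechler real
-/

set_option autoImplicit false

namespace Pool.Agent.helper45.LOCO

open Set Filter Pool.Agent.helper45.LOC

/-- the state of the machine: the reading node from which an exit is searched, the list `a` of
length `na`, the list `c` of length `nc`, and the current run of zeros -/
structure St where
  mode : Option (List ℕ)
  a : ℕ → ℕ
  na : ℕ
  c : ℕ → ℕ
  nc : ℕ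
  r : ℕ

/-- the value `k` is read -/
def St.read (S : St) (k : ℕ) : St :=
  if k % 2 = 1 then
    ⟨none, Function.update S.a S.na (k / 2), S.na + 1, Function.update S.c S.nc S.r, S.nc + 1, 0⟩
  else ⟨none, Function.update S.a S.na (k / 2), S.na + 1, S.c, S.nc, S.r + 1⟩

/-- change of the mode -/
def St.set (S : St) (μ : Option (List ℕ)) : St := ⟨μ, S.a, S.na, S.c, S.nc, S.r⟩

/-- the lists are prolonged -/
def Later (S S' : St) : Prop :=
  S.na ≤ S'.na ∧ (∀ i < S.na, S'.a i = S.a i) ∧ S.nc ≤ S'.nc ∧ ∀ i < S.nc, S'.c i = S.c i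

theorem Later.refl (S : St) : Later S S := ⟨le_rfl, fun _ _ => rfl, le_rfl, fun _ _ => rfl⟩

theorem Later.trans {S T U : St} (h : Later S T) (h' : Later T U) : Later S U :=
  ⟨h.1.trans h'.1, fun i hi => (h'.2.1 i (hi.trans_le h.1)).trans (h.2.1 i hi),
    h.2.2.1.trans h'.2.2.1,
    fun i hi => (h'.2.2.2 i (hi.trans_le h.2.2.1)).trans (h.2.2.2 i hi)⟩

theorem St.read_mode (S : St) (k : ℕ) : (S.read k).mode = none := by
  unfold St.read
  split_ifs <;> rfl

theorem St.read_na (S : St) (k : ℕ) : (S.read k).na = S.na + 1 := by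
  unfold St.read
  split_ifs <;> rfl

theorem St.read_a (S : St) (k : ℕ) : (S.read k).a = Function.update S.a S.na (k / 2) := by
  unfold St.read
  split_ifs <;> rfl

theorem St.read_odd (S : St) {k : ℕ} (h : k % 2 = 1) : (S.read k).nc = S.nc + 1 ∧
    (S.read k).c = Function.update S.c S.nc S.r ∧ (S.read k).r = 0 := by
  unfold St.read
  rw [if_pos h]
  exact ⟨rfl, rfl, rfl⟩

theorem St.read_even (S : St) {k : ℕ} (h : k % 2 = 0) : (S.read k).nc = S.nc ∧
    (S.read k).c = S.c ∧ (S.read k).r = S.r + 1 := by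
  unfold St.read
  rw [if_neg (by omega)]
  exact ⟨rfl, rfl, rfl⟩

theorem Later.read (S : St) (k : ℕ) : Later S (S.read k) := by
  refine ⟨by rw [S.read_na]; omega, fun i hi => ?_, ?_, fun i hi => ?_⟩
  · rw [S.read_a, Function.update_of_ne (by omega)]
  · rcases Nat.mod_two_eq_zero_or_one k with h | h
    · rw [(S.read_even h).1]
    · rw [(S.read_odd h).1]
      omega
  · rcases Nat.mod_two_eq_zero_or_one k with h | h
    · rw [(S.read_even h).2.1]
    · rw [(S.read_odd h).2.1, Function.update_of_ne (by omega)]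

namespace Dat

variable (D : Dat)

/-- the colouring of the exits of `σ` -/
noncomputable def Z (σ : List ℕ) : ℕ → ℕ := Classical.choose (D.exists_Z σ)

theorem Z_spec (σ : List ℕ) (h : D.RN σ) : (∀ m, {a | D.Z σ a ≤ m}.Finite) ∧
    ∀ H : Finset (ℕ → ℕ), H.card ≤ σ.length / 3 → ∃ f, ∀ k ≥ f, ∃ τ, D.Exit σ τ ∧
      Reach D.pos D.π σ τ (H : Set (ℕ → ℕ)) ∧ D.Z σ (code τ) = k :=
  Classical.choose_spec (D.exists_Z σ) h

open Classical in
/-- the transition at the node `ν` -/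
noncomputable def tr (S : St) (ν : List ℕ) : St :=
  match S.mode with
  | none => if D.RN ν then S.set (some ν) else S
  | some σ => if D.Tinf σ ν then S else S.read (D.Z σ (code ν))

theorem tr_RN {S : St} {ν : List ℕ} (h : S.mode = none) (hν : D.RN ν) :
    D.tr S ν = S.set (some ν) := by
  unfold tr
  rw [h]
  exact if_pos hν

theorem tr_not_RN {S : St} {ν : List ℕ} (h : S.mode = none) (hν : ¬ D.RN ν) :
    D.tr S ν = S := by
  unfold tr
  rw [h]
  exact if_neg hν

theorem tr_T {S : St} {σ ν : List ℕ} (h : S.mode = some σ) (hν : D.Tinf σ ν) :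
    D.tr S ν = S := by
  unfold tr
  rw [h]
  exact if_pos hν

theorem tr_not_T {S : St} {σ ν : List ℕ} (h : S.mode = some σ) (hν : ¬ D.Tinf σ ν) :
    D.tr S ν = S.read (D.Z σ (code ν)) := by
  unfold tr
  rw [h]
  exact if_neg hν

/-- the four cases of the transition -/
theorem tr_cases (S : St) (ν : List ℕ) :
    (S.mode = none ∧ D.RN ν ∧ D.tr S ν = S.set (some ν)) ∨
    (S.mode = none ∧ ¬ D.RN ν ∧ D.tr S ν = S) ∨
    (∃ σ, S.mode = some σ ∧ D.Tinf σ ν ∧ D.tr S ν = S) ∨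
    ∃ σ, S.mode = some σ ∧ ¬ D.Tinf σ ν ∧ D.tr S ν = S.read (D.Z σ (code ν)) := by
  rcases h : S.mode with _ | σ
  · by_cases hν : D.RN ν
    · exact Or.inl ⟨rfl, hν, D.tr_RN h hν⟩
    · exact Or.inr (Or.inl ⟨rfl, hν, D.tr_not_RN h hν⟩)
  · by_cases hν : D.Tinf σ ν
    · exact Or.inr (Or.inr (Or.inl ⟨σ, rfl, hν, D.tr_T h hν⟩))
    · exact Or.inr (Or.inr (Or.inr ⟨σ, rfl, hν, D.tr_not_T h hν⟩))

/-- the state at a node -/
noncomputable def st : List ℕ → St
  | [] => ⟨none, fun _ => 0, 0, fun _ => 0, 0, 0⟩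
  | x :: σ => D.tr (st σ) (x :: σ)

theorem st_cons (x : ℕ) (σ : List ℕ) : D.st (x :: σ) = D.tr (D.st σ) (x :: σ) := rfl

variable {D}

theorem later_tr (S : St) (ν : List ℕ) : Later S (D.tr S ν) := by
  rcases D.tr_cases S ν with ⟨-, -, h⟩ | ⟨-, -, h⟩ | ⟨σ, -, -, h⟩ | ⟨σ, -, -, h⟩
  · rw [h]
    exact Later.refl S
  · rw [h]
    exact Later.refl S
  · rw [h]
    exact Later.refl S
  · rw [h]
    exact Later.read S _

theorem later {σ τ : List ℕ} (h : σ <:+ τ) : Later (D.st σ) (D.st τ) := by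
  induction τ with
  | nil => rw [List.suffix_nil.1 h]; exact Later.refl _
  | cons x τ ih =>
    rcases List.suffix_cons_iff.1 h with rfl | h'
    · exact Later.refl _
    · exact (ih h').trans (later_tr _ _)

theorem nc_le (σ : List ℕ) : (D.st σ).nc ≤ (D.st σ).na ∧ (D.st σ).na ≤ σ.length := by
  induction σ with
  | nil => exact ⟨le_rfl, le_rfl⟩
  | cons x σ ih =>
    rw [st_cons, List.length_cons]
    rcases D.tr_cases (D.st σ) (x :: σ) with ⟨-, -, h⟩ | ⟨-, -, h⟩ | ⟨ρ, -, -, h⟩ | ⟨ρ, -, -, h⟩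
    · rw [h]
      exact ⟨ih.1, ih.2.trans (Nat.le_succ _)⟩
    · rw [h]
      exact ⟨ih.1, ih.2.trans (Nat.le_succ _)⟩
    · rw [h]
      exact ⟨ih.1, ih.2.trans (Nat.le_succ _)⟩
    · rw [h, St.read_na]
      refine ⟨?_, by omega⟩
      rcases Nat.mod_two_eq_zero_or_one (D.Z ρ (code (x :: σ))) with h1 | h1
      · rw [((D.st σ).read_even h1).1]
        omega
      · rw [((D.st σ).read_odd h1).1]
        omega

/-- the invariant of the search -/
theorem inv {σ ν : List ℕ} (h : (D.st σ).mode = some ν) : ν <:+ σ ∧ D.RN ν ∧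
    ∀ ν', ν <:+ ν' → ν' <:+ σ → D.Tinf ν ν' ∧ D.st ν' = D.st ν := by
  induction σ with
  | nil => exact absurd h (by simp [st])
  | cons x σ ih =>
    have hcons := D.st_cons x σ
    rcases D.tr_cases (D.st σ) (x :: σ) with ⟨h1, h2, h3⟩ | ⟨h1, h2, h3⟩ | ⟨ρ, h1, h2, h3⟩ |
      ⟨ρ, h1, h2, h3⟩
    · rw [hcons, h3] at h
      have h4 : x :: σ = ν := Option.some.inj h
      subst h4
      refine ⟨List.suffix_rfl, h2, fun ν' h5 h6 => ?_⟩
      have h7 : ν' = x :: σ := h6.eq_of_length_le h5.length_le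
      rw [h7]
      exact ⟨h2.refl, rfl⟩
    · rw [hcons, h3, h1] at h
      exact absurd h (by simp)
    · rw [hcons, h3, h1] at h
      have h4 : ρ = ν := Option.some.inj h
      subst h4
      obtain ⟨i1, i2, i3⟩ := ih h1
      refine ⟨i1.trans (List.suffix_cons _ _), i2, fun ν' h5 h6 => ?_⟩
      rcases List.suffix_cons_iff.1 h6 with rfl | h7
      · refine ⟨h2, ?_⟩
        rw [hcons, h3]
        exact (i3 σ i1 List.suffix_rfl).2
      · exact i3 ν' h5 h7
    · rw [hcons, h3, St.read_mode] at h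
      exact absurd h (by simp)

theorem mode_self {σ ν : List ℕ} (h : (D.st σ).mode = some ν) : (D.st ν).mode = some ν := by
  obtain ⟨h1, -, h3⟩ := inv h
  rw [← (h3 σ h1 List.suffix_rfl).2]
  exact h

/-- at an exit a value is read -/
theorem search {σ τ : List ℕ} (h : (D.st σ).mode = some σ) (hτ : D.Exit σ τ) :
    D.st τ = (D.st σ).read (D.Z σ (code τ)) := by
  obtain ⟨-, hRN, -⟩ := inv h
  obtain ⟨h1, h2, h3⟩ := hτ
  have key : ∀ ν, σ <:+ ν → ν <:+ τ → ν ≠ τ → D.st ν = D.st σ := by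
    intro ν
    induction ν with
    | nil =>
      intro a _ _
      rw [List.suffix_nil.1 a]
    | cons y ν ih =>
      intro a b c
      rcases List.suffix_cons_iff.1 a with rfl | a'
      · rfl
      · have b' : ν <:+ τ := (List.suffix_cons _ _).trans b
        have c' : ν ≠ τ := by
          rintro rfl
          have := b.length_le
          simp only [List.length_cons] at this
          omega
        have h4 := ih a' b' c'
        rw [D.st_cons, h4]
        exact D.tr_T h (h3 _ a b c)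
  rcases τ with _ | ⟨x, τ⟩
  · rw [List.suffix_nil.1 h1] at hRN h2
    exact absurd hRN.refl h2
  · rcases List.suffix_cons_iff.1 h1 with h4 | h4
    · rw [← h4] at h2
      exact absurd hRN.refl h2
    · have h5 := key τ h4 (List.suffix_cons _ _) (by
        intro h6
        have := congrArg List.length h6
        simp only [List.length_cons] at this
        omega)
      rw [D.st_cons, h5]
      exact D.tr_not_T h h2

variable (D) in
/-- configurations -/
def Cfg (q : Loc) (σ : List ℕ) : Prop :=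
  q ≤ D.p0 ∧ At D.pos D.π q σ ∧ (D.st σ).mode = some σ ∧ q.F.card ≤ σ.length / 3

/-- the search for the next reading node -/
theorem next {q : Loc} {τ : List ℕ} (hq : q ≤ D.p0) (hqτ : At D.pos D.π q τ)
    (hτ : (D.st τ).mode = none) : ∃ q' ≤ q, q'.F = q.F ∧ ∃ σ, At D.pos D.π q' σ ∧
      τ <:+ σ ∧ D.st σ = (D.st τ).set (some σ) := by
  classical
  obtain ⟨q2, hq2, hF2, σ2, hσ2, hl, hRN⟩ := reading hq (τ.length + 1)
  have e1 := hqτ.le D.R hq2
  have e2 := path e1 hσ2.2 (by omega)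
  have hex : ∃ i, D.RN (go D.π q2.s τ (i + 1)) := ⟨σ2.length - τ.length - 1, by
    have e3 : σ2.length - τ.length - 1 + 1 = σ2.length - τ.length := by omega
    rw [e3, e2]
    exact hRN⟩
  obtain ⟨i, hi, hmin⟩ : ∃ i, D.RN (go D.π q2.s τ (i + 1)) ∧
      ∀ j < i, ¬ D.RN (go D.π q2.s τ (j + 1)) :=
    ⟨Nat.find hex, Nat.find_spec hex, fun j hj => Nat.find_min hex hj⟩
  have hile : i + 1 ≤ σ2.length - τ.length := by
    by_contra hcon
    push Not at hcon
    refine hmin (σ2.length - τ.length - 1) (by omega) ?_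
    have e3 : σ2.length - τ.length - 1 + 1 = σ2.length - τ.length := by omega
    rw [e3, e2]
    exact hRN
  have hst : ∀ j ≤ i, D.st (go D.π q2.s τ j) = D.st τ := by
    intro j
    induction j with
    | zero => intro _; rfl
    | succ j ih =>
      intro hj
      have h4 := ih (by omega)
      show D.tr (D.st (go D.π q2.s τ j)) (go D.π q2.s τ (j + 1)) = D.st τ
      rw [h4]
      exact D.tr_not_RN hτ (hmin j (by omega))
  obtain ⟨σ, hσ⟩ : ∃ σ, σ = go D.π q2.s τ (i + 1) := ⟨_, rfl⟩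
  have hsuf : σ <:+ σ2 := by
    rw [← e2, hσ]
    exact go_suf _ _ hile
  have hτσ : τ <:+ σ := by
    rw [hσ]
    exact suf_go _ _ _
  have hN : D.pos σ ≤ q2.len := by
    rw [hσ2.1]
    exact pos_suf D.R hsuf
  have hN' : q.len ≤ D.pos σ := by
    rw [hqτ.1]
    exact pos_suf D.R hτσ
  refine ⟨cut q2 (D.pos σ) hN q.F (q.card_F.trans hN'), cut_le hq2 _ _ hN' (Finset.Subset.refl _),
    rfl, σ, ⟨rfl, nd_of_suf hσ2.2 hsuf⟩, hτσ, ?_⟩
  have h5 : D.st σ = D.tr (D.st (go D.π q2.s τ i)) σ := by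
    rw [hσ]
    rfl
  rw [h5, hst i le_rfl]
  exact D.tr_RN hτ (by rw [hσ]; exact hi)

theorem step {q : Loc} {σ : List ℕ} (h : D.Cfg q σ) : ∃ f, ∀ k ≥ f, ∃ q' ≤ q, q'.F = q.F ∧
    ∃ σ', D.Cfg q' σ' ∧ σ <:+ σ' ∧ D.st σ' = ((D.st σ).read k).set (some σ') := by
  obtain ⟨hq, hqσ, hm, hc⟩ := h
  obtain ⟨-, hRN, -⟩ := inv hm
  obtain ⟨-, hZ⟩ := D.Z_spec σ hRN
  obtain ⟨f, hf⟩ := hZ q.F hc
  refine ⟨f, fun k hk => ?_⟩
  obtain ⟨τ, hex, hr, hZk⟩ := hf k hk
  have hle := pos_suf D.R hex.1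
  obtain ⟨q1, hq1, hq1τ, hF1⟩ := ext_of_reach D.R hqσ hr (Finset.Subset.refl _)
    (q.card_F.trans (by rw [hqσ.1]; exact hle))
  have hst := search hm hex
  rw [hZk] at hst
  obtain ⟨q2, hq2, hF2, σ', hσ', hsuf, hst'⟩ := next (Loc.trans hq1 hq) hq1τ
    (by rw [hst]; exact St.read_mode _ _)
  refine ⟨q2, Loc.trans hq2 hq1, by rw [hF2, hF1], σ', ⟨Loc.trans hq2 (Loc.trans hq1 hq), hσ', ?_,
    ?_⟩, hex.1.trans hsuf, ?_⟩
  · rw [hst']
    rfl
  · have h1 := (hex.1.trans hsuf).length_le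
    rw [hF2, hF1]
    omega
  · rw [hst', hst]

theorem start {p : Loc} (hp : p ≤ D.p0) : ∃ q ≤ p, q.F = p.F ∧ ∃ σ, D.Cfg q σ := by
  obtain ⟨p1, hp1, hF1, τ0, hτ0, hl⟩ := long D.R p (3 * p.F.card)
  have hp1p := Loc.trans hp1 hp
  -- a node with mode none
  have h1 : ∃ q ≤ p1, q.F = p.F ∧ ∃ τ, At D.pos D.π q τ ∧ τ0 <:+ τ ∧ (D.st τ).mode = none := by
    rcases hmode : (D.st τ0).mode with _ | σ0
    · exact ⟨p1, p1.refl, hF1, τ0, hτ0, List.suffix_rfl, hmode⟩
    · obtain ⟨i1, i2, i3⟩ := inv hmode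
      obtain ⟨q1, hq1, hFq1, τ1, hτ1, hnT, hτ1l⟩ := leave hp1p σ0 τ0.length
      have e0 : nd D.π q1.s τ0.length = τ0 := hτ0.le D.R hq1
      have e1 : nd D.π q1.s σ0.length = σ0 := nd_of_suf e0 i1
      have e2 := path e1 hτ1.2 (i1.length_le.trans hτ1l)
      rw [← e2] at hnT
      obtain ⟨i, hi, hex⟩ := exists_exit hnT
      obtain ⟨τ, hτ⟩ : ∃ τ, τ = go D.π q1.s σ0 i := ⟨_, rfl⟩
      rw [← hτ] at hex
      have hsuf : τ <:+ τ1 := by
        rw [← e2, hτ]
        exact go_suf _ _ hi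
      have hτ0τ1 : τ0 <:+ τ1 := path_suf e0 hτ1.2 hτ1l
      have hτ0τ : τ0 <:+ τ := by
        rcases le_total τ0.length τ.length with h | h
        · exact List.suffix_of_suffix_length_le hτ0τ1 hsuf h
        · exact absurd (i3 τ hex.1 (List.suffix_of_suffix_length_le hsuf hτ0τ1 h)).1 hex.2.1
      have hN : D.pos τ ≤ q1.len := by
        rw [hτ1.1]
        exact pos_suf D.R hsuf
      have hN' : p1.len ≤ D.pos τ := by
        rw [hτ0.1]
        exact pos_suf D.R hτ0τ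
      refine ⟨cut q1 (D.pos τ) hN p1.F (p1.card_F.trans hN'),
        cut_le hq1 _ _ hN' (Finset.Subset.refl _), hF1, τ, ⟨rfl, nd_of_suf hτ1.2 hsuf⟩, hτ0τ, ?_⟩
      rw [search (mode_self hmode) hex]
      exact St.read_mode _ _
  obtain ⟨q, hq, hF, τ, hτ, hsuf, hmode⟩ := h1
  obtain ⟨q', hq', hF', σ, hσ, hsuf', hst⟩ := next (Loc.trans hq hp1p) hτ hmode
  refine ⟨q', Loc.trans hq' (Loc.trans hq hp1), by rw [hF', hF], σ,
    Loc.trans hq' (Loc.trans hq hp1p), hσ, by rw [hst]; rfl, ?_⟩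
  have h2 := (hsuf.trans hsuf').length_le
  rw [hF', hF]
  omega

end Dat

end Pool.Agent.helper45.LOCO
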