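import Pool.Agent.helper45.LOCO.Basic
import Pool.Agent.helper45.LOCO.Color

/-!
# Subforcings with memory: reading nodes and exits
-/

set_option autoImplicit false

namespace Pool.Agent.helper45.LOCO

open Set Filter Pool.Agent.helper45.LOC

/-- the code of a node -/
def code (σ : List ℕ) : ℕ := Encodable.encode σ

theorem code_inj : Function.Injective code := Encodable.encode_injective

theorem length_le_code (σ : List ℕ) : σ.length ≤ code σ := Encodable.length_le_encode σ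

theorem code_suf {σ τ : List ℕ} (h : σ <:+ τ) : code σ ≤ code τ := by
  induction τ with
  | nil => rw [List.suffix_nil.1 h]
  | cons x τ ih =>
    rcases List.suffix_cons_iff.1 h with rfl | h'
    · exact le_rfl
    · refine (ih h').trans ?_
      show Encodable.encode τ ≤ Encodable.encode (x :: τ)
      rw [Encodable.encode_list_cons]
      exact (Nat.right_le_pair _ _).trans (Nat.le_succ _)

/-- a function of nodes as a function of codes -/
def dec (g : List ℕ → ℕ) (a : ℕ) : ℕ := (Encodable.decode (α := List ℕ) a).elim 0 g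

theorem dec_code (g : List ℕ → ℕ) (σ : List ℕ) : dec g (code σ) = g σ := by
  unfold dec code
  rw [Encodable.encodek]
  rfl

theorem diag (xs : List ℕ → ℕ → ℕ) : ∃ x : ℕ → ℕ, ∀ σ n, code σ ≤ n → xs σ n ≤ x n := by
  refine ⟨fun n => (Finset.range (n + 1)).sup (dec fun σ => xs σ n), fun σ n hn => ?_⟩
  have h := Finset.le_sup (f := dec fun σ => xs σ n) (s := Finset.range (n + 1)) (b := code σ)
    (Finset.mem_range.2 (by omega))
  rwa [dec_code] at h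

/-- `p` forces `x n ≤ d(n)` for `n ≥ c` -/
def FB (d : ℕ → ℕ → Set Loc) (p : Loc) (x : ℕ → ℕ) (c : ℕ) : Prop :=
  ∀ n ≥ c, ∀ m, ∀ r ≤ p, r ∈ d n m → x n ≤ m

theorem FB.le {d : ℕ → ℕ → Set Loc} {p q : Loc} {x : ℕ → ℕ} {c : ℕ} (h : FB d p x c)
    (hq : q ≤ p) : FB d q x c :=
  fun n hn m r hr hrd => h n hn m r (Loc.trans hr hq) hrd

theorem FB.mono {d : ℕ → ℕ → Set Loc} {p : Loc} {x y : ℕ → ℕ} {c c' : ℕ} (h : FB d p x c)
    (hc : c ≤ c') (hy : ∀ n ≥ c', y n ≤ x n) : FB d p y c' :=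
  fun n hn m r hr hrd => (hy n hn).trans (h n (hc.trans hn) m r hr hrd)

/-- the situation: below `p0` the name `d` is a dominating real of the subforcing -/
structure Dat where
  pos : List ℕ → ℕ
  π : List ℕ → (ℕ → Finset ℕ) → ℕ
  R : Reading pos π
  p0 : Loc
  d : ℕ → ℕ → Set Loc
  hd : IsReal (subf pos π) p0 d
  hdom : Dominating p0 d

namespace Dat

variable (D : Dat)

theorem FB_inv {p q : Loc} {σ : List ℕ} {x : ℕ → ℕ} {c : ℕ} (hp : At D.pos D.π p σ)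
    (hq : At D.pos D.π q σ) (hF : p.F = q.F) (h : FB D.d p x c) : FB D.d q x c := by
  intro n hn m r hr hrd
  obtain ⟨r1, hr1, -, τ, hτ, -⟩ := long D.R r 0
  obtain ⟨p1, hp1, h1, h2⟩ := transplant D.R hp hq hF (Loc.trans hr1 hr) hτ
  have h3 := gen_inv D.R (D.hd.mem n m)
  exact h n hn m p1 hp1 (h3.2 τ r1 p1 hτ h2 h1.symm (h3.1.down hr1 hrd))

/-- the small sets of reals of conditions at `σ` which force `x ≤ d` beyond the code of `σ` -/
def Fam (σ : List ℕ) (x : ℕ → ℕ) : Set (Finset (ℕ → ℕ)) :=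
  {F | F.card ≤ σ.length / 3 ∧ ∃ p ≤ D.p0, At D.pos D.π p σ ∧ p.F = F ∧ FB D.d p x (code σ)}

/-- reading nodes -/
def RN (σ : List ℕ) : Prop := ∀ x, ∃ F, F ∈ D.Fam σ x

/-- nodes which cannot be avoided -/
def Tinf (σ τ : List ℕ) : Prop :=
  ∀ x, ∃ F ∈ D.Fam σ x, Reach D.pos D.π σ τ (F : Set (ℕ → ℕ))

/-- the first nodes which can be avoided -/
def Exit (σ τ : List ℕ) : Prop :=
  σ <:+ τ ∧ ¬ D.Tinf σ τ ∧ ∀ ν, σ <:+ ν → ν <:+ τ → ν ≠ τ → D.Tinf σ ν

variable {D}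

theorem RN.refl {σ : List ℕ} (h : D.RN σ) : D.Tinf σ σ := fun x => by
  obtain ⟨F, hF⟩ := h x
  exact ⟨F, hF, Reach.refl _ _⟩

/-- there are long reading nodes -/
theorem reading {p : Loc} (hp : p ≤ D.p0) (L : ℕ) : ∃ q ≤ p, q.F = p.F ∧
    ∃ σ, At D.pos D.π q σ ∧ L ≤ σ.length ∧ D.RN σ := by
  classical
  have h1 : ∀ σ, ∃ x, ¬ D.RN σ → ∀ F, F ∉ D.Fam σ x := by
    intro σ
    by_cases h : D.RN σ
    · exact ⟨0, fun h' => absurd h h'⟩
    · unfold RN at h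
      push Not at h
      obtain ⟨x, hx⟩ := h
      exact ⟨x, fun _ => hx⟩
  choose xs hxs using h1
  obtain ⟨x, hx⟩ := diag xs
  obtain ⟨q, hq, N, hN⟩ := D.hdom x p hp
  obtain ⟨q2, hq2, hF2, σ, hσ, hσl⟩ := long D.R q (L + N + 3 * q.F.card)
  have hq2p : q2 ≤ p := Loc.trans hq2 hq
  have hRN : D.RN σ := by
    by_contra hcon
    refine hxs σ hcon q2.F ⟨by rw [hF2]; omega, q2, Loc.trans hq2p hp, hσ, rfl, ?_⟩
    intro n hn m r hr hrd
    have := length_le_code σ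
    exact (hx σ n hn).trans (hN n (by omega) m r (Loc.trans hr hq2) hrd)
  exact ⟨cut q2 q2.len le_rfl p.F (p.card_F.trans hq2p.1),
    cut_le hq2p _ _ hq2p.1 (Finset.Subset.refl _), rfl, σ, ⟨hσ.1, hσ.2⟩, by omega, hRN⟩

/-- every condition can leave the nodes which cannot be avoided -/
theorem leave {q : Loc} (hq : q ≤ D.p0) (σ : List ℕ) (L : ℕ) : ∃ q1 ≤ q, q1.F = q.F ∧
    ∃ τ, At D.pos D.π q1 τ ∧ ¬ D.Tinf σ τ ∧ L ≤ τ.length := by
  classical
  obtain ⟨q', hq', v, hv⟩ := D.hd.total (code σ) q hq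
  obtain ⟨q1, hq1, hF1, τ, hτ, hτl⟩ := long D.R q' (L + q'.F.card + σ.length / 3)
  have hq1q : q1 ≤ q := Loc.trans hq1 hq'
  have hpos := length_le_pos D.R τ
  have hnot : ¬ D.Tinf σ τ := by
    intro hT
    obtain ⟨F, ⟨hF, p, hp, hpσ, rfl, hFB⟩, hreach⟩ := hT (fun _ => v + 1)
    obtain ⟨p', hp', hp'τ, hp'F⟩ := ext_of_reach D.R hpσ hreach (Finset.Subset.refl _) (by omega)
    have hcard : (q1.F ∪ p.F).card ≤ D.pos τ := by
      refine (Finset.card_union_le _ _).trans ?_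
      rw [hF1]
      omega
    have hc1 : (q1.F ∪ p.F).card ≤ p'.len := by rw [hp'τ.1]; exact hcard
    have hc2 : (q1.F ∪ p.F).card ≤ q1.len := by rw [hτ.1]; exact hcard
    have h3 := gen_inv D.R (D.hd.mem (code σ) v)
    have h4 : cut q1 q1.len le_rfl (q1.F ∪ p.F) hc2 ∈ D.d (code σ) v :=
      h3.1.down (Loc.trans (cut_le q1.refl _ _ le_rfl Finset.subset_union_left) hq1) hv
    have h5 : cut p' p'.len le_rfl (q1.F ∪ p.F) hc1 ∈ D.d (code σ) v :=
      h3.2 τ (cut q1 q1.len le_rfl (q1.F ∪ p.F) hc2) (cut p' p'.len le_rfl (q1.F ∪ p.F) hc1)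
        ⟨hτ.1, hτ.2⟩ ⟨hp'τ.1, hp'τ.2⟩ rfl h4
    have h6 : v + 1 ≤ v := hFB (code σ) le_rfl v _
      (Loc.trans (cut_le p'.refl _ _ le_rfl (by rw [hp'F]; exact Finset.subset_union_right)) hp') h5
    omega
  exact ⟨cut q1 q1.len le_rfl q.F (q.card_F.trans hq1q.1),
    cut_le hq1q _ _ hq1q.1 (Finset.Subset.refl _), rfl, τ, ⟨hτ.1, hτ.2⟩, hnot, by omega⟩

theorem exists_exit {A : ℕ → Finset ℕ} {σ : List ℕ} {k : ℕ}
    (h : ¬ D.Tinf σ (go D.π A σ k)) : ∃ i ≤ k, D.Exit σ (go D.π A σ i) := by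
  classical
  have hex : ∃ i, ¬ D.Tinf σ (go D.π A σ i) := ⟨k, h⟩
  refine ⟨Nat.find hex, Nat.find_min' hex h, suf_go _ _ _, Nat.find_spec hex, ?_⟩
  intro ν h1 h2 h3
  obtain ⟨i, hi, rfl⟩ := between h1 h2
  have hi' : i < Nat.find hex := lt_of_le_of_ne hi fun h4 => h3 (by rw [h4])
  exact not_not.1 (Nat.find_min hex hi')

variable (D) in
/-- the codes of the exits which can be reached -/
def W (σ : List ℕ) (G : Fin (σ.length / 3) → ℕ → ℕ) : Set ℕ :=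
  {a | ∃ τ, code τ = a ∧ D.Exit σ τ ∧ Reach D.pos D.π σ τ (range G)}

variable (D) in
theorem avoid (σ τ : List ℕ) : ∃ x, ¬ D.Tinf σ τ →
    ∀ F ∈ D.Fam σ x, ¬ Reach D.pos D.π σ τ (F : Set (ℕ → ℕ)) := by
  by_cases h : D.Tinf σ τ
  · exact ⟨0, fun h' => absurd h h'⟩
  · have h' := h
    unfold Tinf at h'
    push Not at h'
    obtain ⟨x, hx⟩ := h'
    exact ⟨x, fun _ => hx⟩

variable (D) in
/-- finitely many exits can be avoided -/
theorem avoid_fin (σ : List ℕ) {S : Set ℕ} (hS : S.Finite) : ∃ x, ∀ τ, code τ ∈ S →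
    ¬ D.Tinf σ τ → ∀ F ∈ D.Fam σ x, ¬ Reach D.pos D.π σ τ (F : Set (ℕ → ℕ)) := by
  classical
  choose xs hxs using D.avoid σ
  refine ⟨fun n => hS.toFinset.sup (dec fun τ => xs τ n), fun τ hτ hT F hF => ?_⟩
  refine hxs τ hT F ?_
  obtain ⟨h1, p, hp, hpσ, hpF, hFB⟩ := hF
  refine ⟨h1, p, hp, hpσ, hpF, hFB.mono le_rfl fun n _ => ?_⟩
  have h := Finset.le_sup (f := dec fun τ => xs τ n) (s := hS.toFinset) (b := code τ)
    (hS.mem_toFinset.2 hτ)
  rwa [dec_code] at h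

theorem W_inf {σ : List ℕ} (h : D.RN σ) (G G' : Fin (σ.length / 3) → ℕ → ℕ) :
    (D.W σ G ∩ D.W σ G').Infinite := by
  classical
  intro hfin
  obtain ⟨x, hx⟩ := D.avoid_fin σ hfin
  obtain ⟨F, hF⟩ := h x
  obtain ⟨hFc, p, hp, hpσ, hpF, hFB⟩ := id hF
  let H : Finset (ℕ → ℕ) := p.F ∪ (Finset.univ.image G ∪ Finset.univ.image G')
  have hG : ∀ G : Fin (σ.length / 3) → ℕ → ℕ, (Finset.univ.image G).card ≤ σ.length / 3 := by
    intro G
    refine Finset.card_image_le.trans ?_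
    rw [Finset.card_univ, Fintype.card_fin]
  have hpos := length_le_pos D.R σ
  have hH : H.card ≤ p.len := by
    have e1 := Finset.card_union_le p.F (Finset.univ.image G ∪ Finset.univ.image G')
    have e2 := Finset.card_union_le (Finset.univ.image G) (Finset.univ.image G')
    have e3 := hG G
    have e4 := hG G'
    have e5 : H.card = (p.F ∪ (Finset.univ.image G ∪ Finset.univ.image G')).card := rfl
    rw [hpF] at e1
    rw [hpσ.1, e5, hpF]
    omega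
  have hle : cut p p.len le_rfl H hH ≤ p := cut_le p.refl _ _ le_rfl Finset.subset_union_left
  have hat : At D.pos D.π (cut p p.len le_rfl H hH) σ := ⟨hpσ.1, hpσ.2⟩
  obtain ⟨q1, hq1, -, τ1, hτ1, hnT, hτ1l⟩ := leave (Loc.trans hle hp) σ σ.length
  obtain ⟨A, hA, k, hk⟩ := reach_of_le D.R hat hq1 hτ1.2 hτ1.1.ge hτ1l
  rw [← hk] at hnT
  obtain ⟨i, hi, hex⟩ := exists_exit hnT
  have hreach : Reach D.pos D.π σ (go D.π A σ i) (H : Set (ℕ → ℕ)) := by
    refine ⟨A, fun n h1 h2 => hA n h1 (h2.trans_le ?_), i, rfl⟩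
    rw [← hk]
    exact pos_suf D.R (go_suf _ _ hi)
  have hmem : code (go D.π A σ i) ∈ D.W σ G ∩ D.W σ G' := by
    refine ⟨⟨_, rfl, hex, hreach.subset ?_⟩, ⟨_, rfl, hex, hreach.subset ?_⟩⟩
    · rintro _ ⟨k, rfl⟩
      show G k ∈ (H : Set (ℕ → ℕ))
      exact Finset.mem_coe.2 (Finset.mem_union_right _ (Finset.mem_union_left _
        (Finset.mem_image_of_mem _ (Finset.mem_univ k))))
    · rintro _ ⟨k, rfl⟩
      show G' k ∈ (H : Set (ℕ → ℕ))
      exact Finset.mem_coe.2 (Finset.mem_union_right _ (Finset.mem_union_right _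
        (Finset.mem_image_of_mem _ (Finset.mem_univ k))))
  refine hx _ hmem hex.2.1 F hF (hreach.subset ?_)
  intro f hf
  rw [← hpF] at hf
  exact Finset.mem_coe.2 (Finset.mem_union_left _ hf)

variable (D) in
theorem exists_Z (σ : List ℕ) : ∃ Z : ℕ → ℕ, D.RN σ → (∀ m, {a | Z a ≤ m}.Finite) ∧
    ∀ H : Finset (ℕ → ℕ), H.card ≤ σ.length / 3 → ∃ f, ∀ k ≥ f, ∃ τ, D.Exit σ τ ∧
      Reach D.pos D.π σ τ (H : Set (ℕ → ℕ)) ∧ Z (code τ) = k := by
  by_cases h : D.RN σ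
  · obtain ⟨Z, h1, h2⟩ := exists_color (D.W σ) (dec D.pos) (by
      rintro _ G G' hGG ⟨τ, rfl, hex, hr⟩
      refine ⟨τ, rfl, hex, hr.mono ?_⟩
      rintro _ ⟨k, rfl⟩
      exact ⟨G k, ⟨k, rfl⟩, fun n hn => hGG k n (by rw [dec_code]; exact hn)⟩) (W_inf h)
    refine ⟨Z, fun _ => ⟨h1, fun H hH => ?_⟩⟩
    obtain ⟨b, hb⟩ := tuple H hH
    obtain ⟨f, hf⟩ := h2 b
    refine ⟨f, fun k hk => ?_⟩
    obtain ⟨_, ⟨τ, rfl, hex, hr⟩, hZ⟩ := hf k hk
    refine ⟨τ, hex, hr.subset ?_, hZ⟩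
    intro g hg
    exact hb g (Finset.mem_coe.1 hg)
  · exact ⟨fun _ => 0, fun h' => absurd h' h⟩

end Dat

end Pool.Agent.helper45.LOCO
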