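import Pool.Agent.helper45.LOCO.Blocks

/-!
# Subforcings with memory: sanity checks of the definitions

The generated family is a complete subalgebra, and the maxima of the terms of the generic slalom
form a dominating real below every condition.
-/

set_option autoImplicit false

namespace Pool.Agent.helper45.LOCO

open Pool.Agent.helper45.LOC

theorem subf_isSub {pos : List ℕ → ℕ} {π : List ℕ → (ℕ → Finset ℕ) → ℕ} (R : Reading pos π) :
    IsSub (subf pos π) :=
  gen_sub _ ⟨_, inv_sub R, by
    rintro _ ⟨σ, rfl⟩
    exact ⟨val_reg R σ, val_inv R σ⟩⟩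

theorem max_reading : Reading List.length (fun σ A => (A σ.length).sup id) := by
  refine ⟨fun σ x => by simp, fun σ A A' h => ?_⟩
  show (A' σ.length).sup id = (A σ.length).sup id
  rw [h σ.length le_rfl (by simp)]

theorem max_dominating (p0 : Loc) :
    AddsDominating (subf List.length (fun σ A => (A σ.length).sup id)) p0 := by
  classical
  have R := max_reading
  have hlen : ∀ σ τ : List ℕ, σ.length = τ.length → σ.length = τ.length ∧
      (fun A : ℕ → Finset ℕ => (A σ.length).sup id) = fun A => (A τ.length).sup id := by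
    intro σ τ h
    rw [h]
    exact ⟨rfl, rfl⟩
  have hee : ee List.length = fun j => j := by
    funext j
    simp [ee]
  have hpp : pp (fun σ A => (A σ.length).sup id) = fun j A => (A j).sup id := by
    funext j A
    simp [pp]
  have hloc : Local (fun j : ℕ => j) (fun j (A : ℕ → Finset ℕ) => (A j).sup id) := by
    rw [← hee, ← hpp]
    exact pp_local R hlen
  rw [subf_eq R hlen, hee, hpp]
  refine ⟨fun n m => LOC.val (fun j => j) (fun j A => (A j).sup id) n m, ⟨?_, ?_, ?_⟩, ?_⟩
  · intro n m A _ hS
    exact hS ⟨n, m, rfl⟩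
  · intro n m m' hmm
    rw [Set.eq_empty_iff_forall_notMem]
    rintro p ⟨h1, h2⟩
    obtain ⟨q, hq, hlen, -⟩ := p.long (p.len + (n + 1)) (by omega)
    exact hmm ((h1 q hq (by show n + 1 ≤ q.len; omega)).symm.trans
      (h2 q hq (by show n + 1 ≤ q.len; omega)))
  · intro n p _
    obtain ⟨q, hq, hlen, -⟩ := p.long (p.len + (n + 1)) (by omega)
    refine ⟨q, hq, (q.s n).sup id, fun r hr _ => ?_⟩
    exact pi_eq (e := fun j => j) hloc hr (j := n) (by show n + 1 ≤ q.len; omega)
  · intro x p _
    obtain ⟨q, hq, hlen, hF⟩ := p.long (p.len + 1) (by omega)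
    have hcard : (insert x q.F).card ≤ q.len := by
      refine (Finset.card_insert_le _ _).trans ?_
      rw [hF, hlen]
      exact Nat.succ_le_succ p.card_F
    refine ⟨⟨q.len, q.s, insert x q.F, q.card_s, hcard⟩, Loc.trans ?_ hq, q.len, ?_⟩
    · exact ⟨le_rfl, fun _ _ => rfl, Finset.subset_insert _ _, fun _ _ _ h1 h2 => by
        exact absurd h1 (not_le.2 h2)⟩
    · intro n hn m r hr hrm
      obtain ⟨r', hr', hlen', -⟩ := r.long (r.len + (n + 1)) (by omega)
      have h1 := hrm r' hr' (by show n + 1 ≤ r'.len; omega)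
      have h2 : x n ∈ r'.s n := by
        refine (Loc.trans hr' hr).2.2.2 x (Finset.mem_insert_self _ _) n hn (by omega)
      rw [← h1]
      exact Finset.le_sup (f := id) h2

end Pool.Agent.helper45.LOCO
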